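import Mathlib

open CategoryTheory CategoryTheory.Limits AlgebraicGeometry

namespace Pool.Agent.Helper947

attribute [local instance] MvPolynomial.gradedAlgebra

/-- `Spec ℂ` -/
noncomputable abbrev SpecC : Scheme.{0} := Spec (CommRingCat.of ℂ)

/-- The projective line `P¹ = Proj ℂ[X₀, X₁]`, the flag variety of `SL₂`. -/
noncomputable abbrev P1 : Scheme.{0} := Proj (MvPolynomial.homogeneousSubmodule (Fin 2) ℂ)

/-- Its structure morphism to `Spec ℂ`. -/
noncomputable def P1.str : P1 ⟶ SpecC :=
  Proj.toSpecZero (MvPolynomial.homogeneousSubmodule (Fin 2) ℂ) ≫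
    Spec.map (CommRingCat.ofHom (algebraMap ℂ (MvPolynomial.homogeneousSubmodule (Fin 2) ℂ 0)))

/-- `P¹ × P¹` over `ℂ` -/
noncomputable abbrev X2 : Scheme.{0} := pullback P1.str P1.str
/-- structure morphism -/
noncomputable abbrev X2.str : X2 ⟶ SpecC := pullback.fst P1.str P1.str ≫ P1.str
/-- `(P¹)³` over `ℂ` -/
noncomputable abbrev X3 : Scheme.{0} := pullback X2.str P1.str
/-- structure morphism -/
noncomputable abbrev X3.str : X3 ⟶ SpecC := pullback.fst X2.str P1.str ≫ X2.str
/-- `(P¹)⁴` over `ℂ`, the flag variety `G/B` of `G = SL₂⁴` -/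
noncomputable abbrev X4 : Scheme.{0} := pullback X3.str P1.str
/-- structure morphism -/
noncomputable abbrev X4.str : X4 ⟶ SpecC := pullback.fst X3.str P1.str ≫ X3.str

/-- The four projections `(P¹)⁴ ⟶ P¹`. -/
noncomputable def proj : Fin 4 → (X4 ⟶ P1) :=
  ![pullback.fst X3.str P1.str ≫ pullback.fst X2.str P1.str ≫ pullback.fst P1.str P1.str,
    pullback.fst X3.str P1.str ≫ pullback.fst X2.str P1.str ≫ pullback.snd P1.str P1.str,
    pullback.fst X3.str P1.str ≫ pullback.snd X2.str P1.str,
    pullback.snd X3.str P1.str]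

/-- The `B`-fixed point `[1 : 0]` of `P¹`, as a subset. -/
def pt : Set P1 :=
  {x | (MvPolynomial.X 1 : MvPolynomial (Fin 2) ℂ) ∈ x.asHomogeneousIdeal}

/-- The Weyl group `(ℤ/2)⁴` is the set of subsets `J` of `{0,1,2,3}`; this is the Schubert cell
(the `B`-orbit) of `J`: the `i`-th coordinate is the fixed point of `P¹` exactly for `i ∉ J`. -/
def cell (J : Finset (Fin 4)) : Set X4 := {x | ∀ i, proj i x ∈ pt ↔ i ∉ J}

/-- The Schubert variety of `J`, as a closed subset of `(P¹)⁴`: the closure of the cell. -/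
noncomputable def schubert (J : Finset (Fin 4)) : TopologicalSpace.Closeds X4 :=
  TopologicalSpace.Closeds.closure (cell J)

/-- `X_S`: the union of the Schubert varieties of the members of `S`,
with its reduced scheme structure. -/
noncomputable def XS (S : Finset (Finset (Fin 4))) : Scheme.{0} :=
  (Scheme.IdealSheafData.vanishingIdeal (S.sup schubert)).subscheme

/-- The closed immersion `X_S ⟶ (P¹)⁴`. -/
noncomputable def XS.ι (S : Finset (Finset (Fin 4))) : XS S ⟶ X4 :=
  (Scheme.IdealSheafData.vanishingIdeal (S.sup schubert)).subschemeι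

/-- An irreducible curve over `ℂ`. -/
structure IsIrreducibleCurve {C : Scheme.{0}} (c : C ⟶ SpecC) : Prop where
  irreducible : IrreducibleSpace C
  locallyOfFiniteType : LocallyOfFiniteType c
  quasiCompact : QuasiCompact c
  separated : IsSeparated c
  dim_eq_one : topologicalKrullDim C = 1

/-- The closed subscheme `z : Z ⟶ (P¹)⁴` deforms to an irreducible variety: there are an
irreducible curve `C`, a closed subscheme `i : F ⟶ (P¹)⁴ × C` flat over `C`, and a closed point
`o` of `C` such that the fibre of `F` over `o` is `Z` (as a subscheme of `(P¹)⁴`), and the fibres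
over the closed points of some nonempty open subset of `C` are integral. -/
def DeformsToIrreducible {Z : Scheme.{0}} (z : Z ⟶ X4) : Prop :=
  ∃ (C : Scheme.{0}) (c : C ⟶ SpecC) (_ : IsIrreducibleCurve c)
    (F : Scheme.{0}) (i : F ⟶ pullback X4.str c) (_ : IsClosedImmersion i)
    (_ : Flat (i ≫ pullback.snd X4.str c)) (o : C) (_ : IsClosed {o}),
    (∃ e : (i ≫ pullback.snd X4.str c).fiber o ≅ Z,
      e.hom ≫ z = (i ≫ pullback.snd X4.str c).fiberι o ≫ i ≫ pullback.fst X4.str c) ∧
    ∃ U : C.Opens, (U : Set C).Nonempty ∧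
      ∀ p ∈ U, IsClosed {p} → IsIntegral ((i ≫ pullback.snd X4.str c).fiber p)

/-- A local ring is Cohen–Macaulay if it is Noetherian and has a regular sequence in its maximal
ideal whose length is the Krull dimension. -/
def IsCMLocal (R : Type) [CommRing R] [IsLocalRing R] : Prop :=
  IsNoetherianRing R ∧ ∃ rs : List R, (∀ r ∈ rs, r ∈ IsLocalRing.maximalIdeal R) ∧
    RingTheory.Sequence.IsRegular R rs ∧ (rs.length : WithBot ℕ∞) = ringKrullDim R

/-- A scheme is Cohen–Macaulay if it is locally Noetherian with Cohen–Macaulay local rings. -/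
def IsCohenMacaulay (X : Scheme.{0}) : Prop :=
  IsLocallyNoetherian X ∧ ∀ x : X, IsCMLocal (X.presheaf.stalk x)

end Pool.Agent.Helper947
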