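import Mathlib
import Pool.Agent.Helper947.Defs

open CategoryTheory CategoryTheory.Limits AlgebraicGeometry

namespace Pool.Agent.Helper947

attribute [local instance] MvPolynomial.gradedAlgebra

noncomputable abbrev gr : ℕ → Submodule ℂ (MvPolynomial (Fin 2) ℂ) :=
  MvPolynomial.homogeneousSubmodule (Fin 2) ℂ

instance : Algebra.FiniteType (gr 0) (MvPolynomial (Fin 2) ℂ) := by
  have : IsScalarTower ℂ (gr 0) (MvPolynomial (Fin 2) ℂ) := 
    ⟨fun c p q => by
      change (c • (p : MvPolynomial (Fin 2) ℂ)) * q = c • ((p : MvPolynomial (Fin 2) ℂ) * q)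
      rw [smul_mul_assoc]⟩
  exact Algebra.FiniteType.of_restrictScalars_finiteType ℂ (gr 0) (MvPolynomial (Fin 2) ℂ)

lemma bij0 : Function.Bijective (algebraMap ℂ (gr 0)) := by
  constructor
  · intro a b h
    have := congrArg (fun x : gr 0 => (x : MvPolynomial (Fin 2) ℂ)) h
    simpa using this
  · rintro ⟨p, hp⟩
    have hp' : p ∈ (1 : Submodule ℂ (MvPolynomial (Fin 2) ℂ)) := by
      rw [← MvPolynomial.homogeneousSubmodule_zero]; exact hp
    obtain ⟨c, hc⟩ := Submodule.mem_one.mp hp'
    exact ⟨c, Subtype.ext (by simpa using hc)⟩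

instance : IsIso (CommRingCat.ofHom (algebraMap ℂ (gr 0))) := by
  rw [ConcreteCategory.isIso_iff_bijective]
  exact bij0

instance : IsProper P1.str := by
  unfold P1.str P1
  infer_instance

end Pool.Agent.Helper947
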