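import Mathlib
import Pool.Agent.Helper947.T1

open CategoryTheory CategoryTheory.Limits AlgebraicGeometry

namespace Pool.Agent.Helper947

attribute [local instance] MvPolynomial.gradedAlgebra

open HomogeneousLocalization MvPolynomial

lemma hom_scale {L : Type*} [CommRing L] [Algebra ℂ L] (r : L) (v : Fin 2 → L)
    (φ : MvPolynomial (Fin 2) ℂ) (n : ℕ) (h : φ.IsHomogeneous n) :
    aeval (fun i => r * v i) φ = r ^ n * aeval v φ := by
  rw [aeval_def, aeval_def, eval₂_eq', eval₂_eq', Finset.mul_sum]
  refine Finset.sum_congr rfl fun d hd => ?_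
  have hd' : ∑ i, d i = n := by
    have := h (mem_support_iff.mp hd)
    rw [← this, Finsupp.weight_apply, Finsupp.sum_fintype _ _ (by simp)]
    simp
  have : ∏ i, (r * v i) ^ d i = r ^ n * ∏ i, v i ^ d i := by
    simp_rw [mul_pow]
    rw [Finset.prod_mul_distrib, Finset.prod_pow_eq_pow_sum, hd']
  rw [this]; ring

/-- the linear form `X₀ + lam X₁` -/
noncomputable def ell (lam : ℂ) : MvPolynomial (Fin 2) ℂ := X 0 + C lam * X 1

lemma ell_mem (lam : ℂ) : ell lam ∈ gr 1 := by
  apply Submodule.add_mem
  · exact isHomogeneous_X _ _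
  · exact isHomogeneous_C_mul_X _ _

noncomputable def evA (lam : ℂ) : MvPolynomial (Fin 2) ℂ →ₐ[ℂ] Polynomial ℂ :=
  aeval ![1 - Polynomial.C lam * Polynomial.X, Polynomial.X]

lemma evA_ell (lam : ℂ) : evA lam (ell lam) = 1 := by
  simp [evA, ell]

noncomputable def evL (lam : ℂ) : Localization.Away (ell lam) →+* Polynomial ℂ :=
  IsLocalization.Away.lift (ell lam) (g := (evA lam).toRingHom)
    (by
      change IsUnit (evA lam (ell lam))
      rw [evA_ell]; exact isUnit_one)

noncomputable def evH (lam : ℂ) : Away gr (ell lam) →+* Polynomial ℂ :=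
  (evL lam).comp (algebraMap (Away gr (ell lam)) (Localization.Away (ell lam)))

noncomputable def toAw (lam : ℂ) : Polynomial ℂ →+* Away gr (ell lam) :=
  Polynomial.eval₂RingHom ((fromZeroRingHom gr (Submonoid.powers (ell lam))).comp
    (algebraMap ℂ (gr 0)))
    (Away.isLocalizationElem (ell_mem lam) (isHomogeneous_X ℂ (1 : Fin 2) : X 1 ∈ gr 1))

lemma evL_algebraMap (lam : ℂ) (p : MvPolynomial (Fin 2) ℂ) :
    evL lam (algebraMap _ _ p) = evA lam p := by
  unfold evL
  rw [IsLocalization.Away.lift_eq]; rfl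

lemma evL_mk (lam : ℂ) (p : MvPolynomial (Fin 2) ℂ) (n : ℕ) :
    evL lam (Localization.mk p (⟨ell lam ^ n, ⟨n, rfl⟩⟩ : Submonoid.powers (ell lam))) =
      evA lam p := by
  have h1 : Localization.mk p (⟨ell lam ^ n, ⟨n, rfl⟩⟩ : Submonoid.powers (ell lam)) *
      algebraMap _ (Localization.Away (ell lam)) (ell lam ^ n) =
      algebraMap _ _ p := by
    rw [Localization.mk_eq_mk']
    exact IsLocalization.mk'_spec _ _ _
  have h2 := congrArg (evL lam) h1
  rw [map_mul, evL_algebraMap, evL_algebraMap, map_pow, evA_ell, one_pow, mul_one] at h2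
  exact h2

lemma evH_eq (lam : ℂ) (a : Away gr (ell lam)) : evH lam a = evL lam a.val := by
  rw [evH, RingHom.comp_apply, HomogeneousLocalization.algebraMap_apply]

lemma evH_mk (lam : ℂ) (n : ℕ) (p : MvPolynomial (Fin 2) ℂ) (hp : p ∈ gr (n • 1)) :
    evH lam (Away.mk gr (ell_mem lam) n p hp) = evA lam p := by
  rw [evH_eq, Away.val_mk]
  exact evL_mk lam p n

lemma val_fromZero (lam : ℂ) (c : ℂ) :
    ((fromZeroRingHom gr (Submonoid.powers (ell lam))) (algebraMap ℂ (gr 0) c)).val =
      algebraMap (MvPolynomial (Fin 2) ℂ) (Localization.Away (ell lam)) (MvPolynomial.C c) := by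
  rw [← Localization.mk_one_eq_algebraMap]
  rfl

lemma evH_toAw (lam : ℂ) (p : Polynomial ℂ) : evH lam (toAw lam p) = p := by
  suffices h : (evH lam).comp (toAw lam) = RingHom.id _ from congrArg (fun f => f p) h
  apply Polynomial.ringHom_ext
  · intro a
    rw [toAw, RingHom.comp_apply, Polynomial.coe_eval₂RingHom, Polynomial.eval₂_C,
      RingHom.id_apply, evH_eq, RingHom.comp_apply, val_fromZero, evL_algebraMap]
    simp [evA]
  · rw [toAw, RingHom.comp_apply, Polynomial.coe_eval₂RingHom, Polynomial.eval₂_X,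
      RingHom.id_apply, Away.isLocalizationElem, evH_mk]
    simp [evA]

/-- `X₁ / ell` in the localization -/
noncomputable def zl (lam : ℂ) : Localization.Away (ell lam) :=
  Localization.mk (X 1) (⟨ell lam ^ 1, ⟨1, rfl⟩⟩ : Submonoid.powers (ell lam))

lemma val_toAw (lam : ℂ) (q : Polynomial ℂ) :
    (toAw lam q).val = Polynomial.aeval (zl lam) q := by
  suffices h : (algebraMap (Away gr (ell lam)) (Localization.Away (ell lam))).comp (toAw lam) =
      (Polynomial.aeval (zl lam)).toRingHom from congrArg (fun f => f q) h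
  apply Polynomial.ringHom_ext
  · intro a
    rw [toAw, RingHom.comp_apply, Polynomial.coe_eval₂RingHom, Polynomial.eval₂_C,
      HomogeneousLocalization.algebraMap_apply, RingHom.comp_apply, val_fromZero]
    simp
    rfl
  · rw [toAw, RingHom.comp_apply, Polynomial.coe_eval₂RingHom, Polynomial.eval₂_X,
      Away.isLocalizationElem, HomogeneousLocalization.algebraMap_apply, Away.val_mk]
    simp [zl]

lemma ell_mul_zl (lam : ℂ) :
    algebraMap _ (Localization.Away (ell lam)) (ell lam) * zl lam =
      algebraMap (MvPolynomial (Fin 2) ℂ) _ (X 1) := by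
  unfold zl
  rw [Localization.mk_eq_mk']
  have := IsLocalization.mk'_spec' (Localization.Away (ell lam)) (X 1 : MvPolynomial (Fin 2) ℂ)
    (⟨ell lam ^ 1, ⟨1, rfl⟩⟩ : Submonoid.powers (ell lam))
  simpa using this

lemma toAw_evH (lam : ℂ) (a : Away gr (ell lam)) : toAw lam (evH lam a) = a := by
  obtain ⟨n, p, hp, rfl⟩ := Away.mk_surjective gr (ell_mem lam) a
  rw [evH_mk]
  apply HomogeneousLocalization.val_injective
  rw [Away.val_mk, val_toAw]
  have hp' : p.IsHomogeneous n := by simpa using hp
  set L := Localization.Away (ell lam)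
  -- the two coordinates
  let v : Fin 2 → L := ![1 - algebraMap ℂ L lam * zl lam, zl lam]
  have h1 : Polynomial.aeval (zl lam) (evA lam p) = aeval v p := by
    suffices h : (Polynomial.aeval (zl lam)).comp (evA lam) = aeval v from
      congrArg (fun f => f p) h
    apply MvPolynomial.algHom_ext
    intro i
    fin_cases i
    · simp [evA, v]
      left; rfl
    · simp [evA, v]
  have h2 : (fun i => algebraMap _ L (ell lam) * v i) =
      fun i => algebraMap (MvPolynomial (Fin 2) ℂ) L (X i) := by
    funext i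
    fin_cases i
    · have hc : algebraMap ℂ L lam = algebraMap (MvPolynomial (Fin 2) ℂ) L (C lam) := rfl
      simp only [v, Fin.zero_eta, Matrix.cons_val_zero]
      rw [mul_sub, mul_one, mul_left_comm, ell_mul_zl, hc, ← map_mul, ← map_sub]
      congr 1
      simp [ell]
    · simp only [v, Fin.mk_one, Matrix.cons_val_one, Matrix.cons_val_zero]
      exact ell_mul_zl lam
  have h3 := hom_scale (algebraMap _ L (ell lam)) v p n hp'
  rw [h2] at h3
  have h4 : aeval (fun i => algebraMap (MvPolynomial (Fin 2) ℂ) L (X i)) p =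
      algebraMap (MvPolynomial (Fin 2) ℂ) L p := by
    suffices h : aeval (fun i => algebraMap (MvPolynomial (Fin 2) ℂ) L (X i)) =
      (IsScalarTower.toAlgHom ℂ (MvPolynomial (Fin 2) ℂ) L) from congrArg (fun f => f p) h
    apply MvPolynomial.algHom_ext
    intro i
    simp
  rw [h4] at h3
  rw [h1, Localization.mk_eq_mk']
  symm
  rw [IsLocalization.mk'_eq_iff_eq_mul, h3]
  rw [mul_comm, map_pow]

/-- the chart ring -/
noncomputable def chartEquiv (lam : ℂ) : Away gr (ell lam) ≃+* Polynomial ℂ where
  toFun := evH lam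
  invFun := toAw lam
  left_inv := toAw_evH lam
  right_inv := evH_toAw lam
  map_mul' := map_mul _
  map_add' := map_add _

end Pool.Agent.Helper947
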