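import Mathlib
import Pool.Agent.Helper947.T2

open CategoryTheory CategoryTheory.Limits AlgebraicGeometry

namespace Pool.Agent.Helper947

attribute [local instance] MvPolynomial.gradedAlgebra

open HomogeneousLocalization MvPolynomial

/-- the affine line -/
noncomputable abbrev A1 : Scheme.{0} := Spec (CommRingCat.of (Polynomial ℂ))

noncomputable abbrev A1.str : A1 ⟶ SpecC := Spec.map (CommRingCat.ofHom (algebraMap ℂ (Polynomial ℂ)))

noncomputable def chart (lam : ℂ) : A1 ⟶ P1 :=
  Spec.map (CommRingCat.ofHom (evH lam)) ≫ Proj.awayι gr (ell lam) (ell_mem lam) one_pos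

instance (lam : ℂ) : IsIso (CommRingCat.ofHom (evH lam)) := by
  rw [ConcreteCategory.isIso_iff_bijective]
  exact (chartEquiv lam).bijective

instance (lam : ℂ) : IsOpenImmersion (chart lam) := by
  unfold chart
  infer_instance

lemma opensRange_chart (lam : ℂ) : (chart lam).opensRange = Proj.basicOpen gr (ell lam) := by
  unfold chart
  rw [← Proj.opensRange_awayι gr (ell lam) (ell_mem lam) one_pos]
  exact Scheme.Hom.opensRange_comp_of_isIso _ _

lemma chart_preimage (lam : ℂ) :
    (chart lam) ⁻¹ᵁ (Proj.basicOpen gr (X 1)) = PrimeSpectrum.basicOpen (Polynomial.X : Polynomial ℂ) := by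
  unfold chart
  have := Proj.awayι_preimage_basicOpen gr (f := ell lam) (ell_mem lam) one_pos
    (g := X 1) (isHomogeneous_X ℂ (1 : Fin 2)) one_pos
  change (Spec.map (CommRingCat.ofHom (evH lam))) ⁻¹ᵁ ((Proj.awayι gr (ell lam) (ell_mem lam) one_pos) ⁻¹ᵁ (Proj.basicOpen gr (X 1))) = _
  rw [this]
  change PrimeSpectrum.basicOpen (evH lam _) = _
  rw [Away.isLocalizationElem, evH_mk]
  simp [evA]

lemma chart_str (lam : ℂ) : chart lam ≫ P1.str = A1.str := by
  unfold chart P1.str
  have h := Proj.awayι_toSpecZero gr (ell lam) (ell_mem lam) one_pos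
  rw [Category.assoc]
  erw [reassoc_of% h]
  rw [← Spec.map_comp, ← Spec.map_comp]
  congr 1
  apply CommRingCat.hom_ext
  apply RingHom.ext
  intro a
  change evH lam (fromZeroRingHom gr _ (algebraMap ℂ (gr 0) a)) = _
  rw [evH_eq, val_fromZero, evL_algebraMap]
  simp [evA]

lemma exists_chart (x : P1) : ∃ lam : ℂ, x ∈ (chart lam).opensRange := by
  by_contra hcon
  push Not at hcon
  have h0 := hcon 0
  have h1 := hcon 1
  rw [opensRange_chart] at h0 h1
  have h0' : ell 0 ∈ x.asHomogeneousIdeal := not_not.mp h0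
  have h1' : ell 1 ∈ x.asHomogeneousIdeal := not_not.mp h1
  have hx0 : (X 0 : MvPolynomial (Fin 2) ℂ) ∈ x.asHomogeneousIdeal := by
    simpa [ell] using h0'
  have hx1 : (X 1 : MvPolynomial (Fin 2) ℂ) ∈ x.asHomogeneousIdeal := by
    have := Ideal.sub_mem x.asHomogeneousIdeal.toIdeal h1' h0'
    simpa [ell] using this
  apply x.not_irrelevant_le
  intro p hp
  have hp0 : MvPolynomial.coeff 0 p = 0 := by
    have h := (HomogeneousIdeal.mem_irrelevant_iff gr p).mp hp
    rw [GradedRing.proj_apply] at h
    have h2 : (DirectSum.decompose gr p 0 : MvPolynomial (Fin 2) ℂ) =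
      MvPolynomial.homogeneousComponent 0 p := MvPolynomial.decomposition.decompose'_apply p 0
    rw [h2, MvPolynomial.homogeneousComponent_zero] at h
    simpa using h
  have hmem : p ∈ Ideal.span (MvPolynomial.X '' (Set.univ : Set (Fin 2))) := by
    rw [MvPolynomial.mem_ideal_span_X_image]
    intro m hm
    by_contra hcon
    push Not at hcon
    have : m = 0 := by
      ext i
      simpa using hcon i (Set.mem_univ i)
    rw [this, MvPolynomial.mem_support_iff] at hm
    exact hm hp0
  refine (Ideal.span_le.mpr ?_) hmem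
  rintro _ ⟨i, -, rfl⟩
  fin_cases i
  · exact hx0
  · exact hx1

end Pool.Agent.Helper947
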