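import Mathlib
import Pool.Agent.Helper947.T3

open CategoryTheory CategoryTheory.Limits AlgebraicGeometry

namespace Pool.Agent.Helper947

attribute [local instance] MvPolynomial.gradedAlgebra

section
variable {Y : Scheme.{0}} (g : Y ⟶ SpecC) {B : Type} [CommRing B] [Algebra ℂ B]
  (j : Spec (CommRingCat.of B) ⟶ Y)
  (hj : j ≫ g = Spec.map (CommRingCat.ofHom (algebraMap ℂ B))) (lam : ℂ)

lemma specPoly_isPullback (B : Type) [CommRing B] [Algebra ℂ B] :
    IsPullback (Spec.map (CommRingCat.ofHom (Polynomial.C : B →+* Polynomial B)))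
      (Spec.map (CommRingCat.ofHom (Polynomial.mapRingHom (algebraMap ℂ B))))
      (Spec.map (CommRingCat.ofHom (algebraMap ℂ B)))
      (Spec.map (CommRingCat.ofHom (Polynomial.C : ℂ →+* Polynomial ℂ))) := by
  let := (Polynomial.mapRingHom (algebraMap ℂ B)).toAlgebra
  have : IsScalarTower ℂ (Polynomial ℂ) (Polynomial B) := IsScalarTower.of_algebraMap_eq (by
    intro x
    rw [RingHom.algebraMap_toAlgebra]
    simp)
  exact isPullback_SpecMap_of_isPushout _ _ _ _
    (CommRingCat.isPushout_of_isPushout ℂ B (Polynomial ℂ) (Polynomial B))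

include hj in
lemma prodChart_aux :
    (Spec.map (CommRingCat.ofHom (Polynomial.C : B →+* Polynomial B)) ≫ j) ≫ g =
    (Spec.map (CommRingCat.ofHom (Polynomial.mapRingHom (algebraMap ℂ B))) ≫ chart lam) ≫
      P1.str := by
  rw [Category.assoc, hj, Category.assoc, chart_str]
  exact (specPoly_isPullback B).w

/-- chart of `Y × P1` -/
noncomputable def prodChart : Spec (CommRingCat.of (Polynomial B)) ⟶ pullback g P1.str :=
  pullback.lift (Spec.map (CommRingCat.ofHom (Polynomial.C : B →+* Polynomial B)) ≫ j)
    (Spec.map (CommRingCat.ofHom (Polynomial.mapRingHom (algebraMap ℂ B))) ≫ chart lam)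
    (prodChart_aux g j hj lam)

instance [IsOpenImmersion j] : IsOpenImmersion (prodChart g j hj lam) := by
  have h := MorphismProperty.pullbackMap (P := @IsOpenImmersion)
    (f := Spec.map (CommRingCat.ofHom (algebraMap ℂ B))) (g := A1.str) (f' := g) (g' := P1.str)
    (i₁ := j) (i₂ := chart lam) inferInstance inferInstance hj.symm (chart_str lam).symm
  have h2 : prodChart g j hj lam = (specPoly_isPullback B).isoPullback.hom ≫
      pullback.map _ _ _ _ j (chart lam) (𝟙 _) ((Category.comp_id _).trans hj.symm)
        ((Category.comp_id _).trans (chart_str lam).symm) := by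
    unfold prodChart
    apply pullback.hom_ext
    · rw [pullback.lift_fst, Category.assoc, pullback.lift_fst, IsPullback.isoPullback_hom_fst_assoc]
    · rw [pullback.lift_snd, Category.assoc, pullback.lift_snd, IsPullback.isoPullback_hom_snd_assoc]
  rw [h2]
  infer_instance

end

end Pool.Agent.Helper947
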