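import Mathlib
import Pool.Agent.Helper947.T4

open CategoryTheory CategoryTheory.Limits AlgebraicGeometry

namespace Pool.Agent.Helper947

attribute [local instance] MvPolynomial.gradedAlgebra

section
variable {Y : Scheme.{0}} (g : Y ⟶ SpecC) {B : Type} [CommRing B] [Algebra ℂ B]
  (j : Spec (CommRingCat.of B) ⟶ Y)
  (hj : j ≫ g = Spec.map (CommRingCat.ofHom (algebraMap ℂ B))) (lam : ℂ)

@[reassoc (attr := simp)]
lemma prodChart_fst : prodChart g j hj lam ≫ pullback.fst g P1.str =
    Spec.map (CommRingCat.ofHom (Polynomial.C : B →+* Polynomial B)) ≫ j := by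
  rw [prodChart, pullback.lift_fst]

@[reassoc (attr := simp)]
lemma prodChart_snd : prodChart g j hj lam ≫ pullback.snd g P1.str =
    Spec.map (CommRingCat.ofHom (Polynomial.mapRingHom (algebraMap ℂ B))) ≫ chart lam := by
  rw [prodChart, pullback.lift_snd]

lemma prodChart_str : prodChart g j hj lam ≫ (pullback.fst g P1.str ≫ g) =
    Spec.map (CommRingCat.ofHom (algebraMap ℂ (Polynomial B))) := by
  rw [prodChart_fst_assoc, hj, ← Spec.map_comp]
  rfl

lemma range_prodChart [IsOpenImmersion j] : Set.range (prodChart g j hj lam) =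
    (pullback.fst g P1.str) ⁻¹' Set.range j ∩
      (pullback.snd g P1.str) ⁻¹' Set.range (chart lam) := by
  have h2 : prodChart g j hj lam = (specPoly_isPullback B).isoPullback.hom ≫
      pullback.map _ _ _ _ j (chart lam) (𝟙 _) ((Category.comp_id _).trans hj.symm)
        ((Category.comp_id _).trans (chart_str lam).symm) := by
    unfold prodChart
    apply pullback.hom_ext
    · rw [pullback.lift_fst, Category.assoc, pullback.lift_fst, IsPullback.isoPullback_hom_fst_assoc]
    · rw [pullback.lift_snd, Category.assoc, pullback.lift_snd, IsPullback.isoPullback_hom_snd_assoc]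
  have h3 := Scheme.Pullback.range_map (f := Spec.map (CommRingCat.ofHom (algebraMap ℂ B)))
    (g := A1.str) g P1.str j (chart lam) (𝟙 SpecC) ((Category.comp_id _).trans hj.symm)
        ((Category.comp_id _).trans (chart_str lam).symm)
  rw [h2, ← h3]
  ext z
  constructor
  · rintro ⟨x, rfl⟩
    exact ⟨_, rfl⟩
  · rintro ⟨x, rfl⟩
    refine ⟨(specPoly_isPullback B).isoPullback.inv x, ?_⟩
    rw [← Scheme.Hom.comp_apply, Iso.inv_hom_id_assoc]

end

end Pool.Agent.Helper947
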