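import Mathlib
import Pool.Agent.Helper947.T5

open CategoryTheory CategoryTheory.Limits AlgebraicGeometry

namespace Pool.Agent.Helper947

attribute [local instance] MvPolynomial.gradedAlgebra

/-- the explicit form of the Schubert variety -/
def schubertSet (J : Finset (Fin 4)) : Set X4 := {x | ∀ i, i ∉ J → proj i x ∈ pt}

/-- union of Schubert varieties as a closed set -/
noncomputable def unionSet (S : Finset (Finset (Fin 4))) : TopologicalSpace.Closeds X4 := S.sup schubert

lemma isClosed_pt : IsClosed pt := by
  have : pt = ((Proj.basicOpen gr (MvPolynomial.X 1) : P1.Opens) : Set P1)ᶜ := by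
    ext x
    change _ ↔ ¬ ¬ _
    rw [not_not]; rfl
  rw [this]
  exact (Proj.basicOpen gr (MvPolynomial.X 1)).isOpen.isClosed_compl

lemma isClosed_schubertSet (J : Finset (Fin 4)) : IsClosed (schubertSet J) := by
  have : schubertSet J = ⋂ i, ⋂ (_ : i ∉ J), (proj i) ⁻¹' pt := by
    ext x; simp [schubertSet]
  rw [this]
  exact isClosed_iInter fun i => isClosed_iInter fun _ => isClosed_pt.preimage (proj i).continuous

end Pool.Agent.Helper947
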