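import Mathlib

namespace Pool.Agent.Helper947

open Polynomial

section
variable {A : Type*} [CommRing A]

/-- extension of an ideal of `A` to `A[X][Y]` -/
noncomputable abbrev up (I : Ideal A) : Ideal A[X][X] := (I.map C).map C

/-- contraction -/
noncomputable abbrev down (J : Ideal A[X][X]) : Ideal A := (J.comap (C : A[X] →+* A[X][X])).comap (C : A →+* A[X])

lemma comap_C_map_C (I : Ideal A) : (I.map (C : A →+* A[X])).comap C = I := by
  ext x
  rw [Ideal.mem_comap, Ideal.mem_map_C_iff]
  constructor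
  · intro h
    simpa using h 0
  · intro h n
    rw [coeff_C]
    split_ifs
    · exact h
    · exact I.zero_mem

lemma down_up (I : Ideal A) : down (up I) = I := by
  rw [down, up, comap_C_map_C, comap_C_map_C]

lemma up_le_iff {I : Ideal A} {J : Ideal A[X][X]} : up I ≤ J ↔ I ≤ down J := by
  rw [up, down, Ideal.map_le_iff_le_comap, Ideal.map_le_iff_le_comap]

lemma down_mono {I J : Ideal A[X][X]} (h : I ≤ J) : down I ≤ down J :=
  Ideal.comap_mono (Ideal.comap_mono h)

instance up_isPrime (I : Ideal A) [I.IsPrime] : (up I).IsPrime := inferInstance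

lemma eq_up_of_le [IsNoetherianRing A] (N : Ideal A) [N.IsPrime]
    (hN : ∀ P : Ideal A, P.IsPrime → N ≤ P)
    (hdim : Ring.KrullDimLE 1 A) (m : Ideal A) [m.IsPrime] (q : Ideal A[X][X]) [q.IsPrime]
    (hq : q ≤ up m) (hqN : down q = N) : q = up N := by
  have hNq : up N ≤ q := up_le_iff.mpr hqN.ge
  by_cases hmN : m = N
  · subst hmN
    exact le_antisymm hq hNq
  have hNm : ¬ m ≤ N := fun h => hmN (le_antisymm h (hN m inferInstance))
  obtain ⟨a, ham, haN⟩ := SetLike.not_le_iff_exists.mp hNm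
  have hkey : ∀ P : Ideal A, P.IsPrime → a ∈ P → P ≤ m → P = m := by
    intro P hP haP hPm
    rcases (Ring.krullDimLE_one_iff.mp hdim) P hP with h | h
    · exfalso
      apply haN
      have : P ≤ N := h.2 ⟨‹N.IsPrime›, bot_le⟩ (hN P hP)
      exact this haP
    · exact h.eq_of_le (Ideal.IsPrime.ne_top ‹m.IsPrime›) hPm
  have hmin : up m ∈ (Ideal.span {C (C a)} : Ideal A[X][X]).minimalPrimes := by
    refine ⟨⟨inferInstance, ?_⟩, ?_⟩
    · rw [Ideal.span_singleton_le_iff_mem]
      exact Ideal.mem_map_of_mem _ (Ideal.mem_map_of_mem _ ham)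
    · rintro Q ⟨hQ, haQ⟩ hQm
      have h1 : down Q = m := by
        apply hkey
        · infer_instance
        · rw [Ideal.span_singleton_le_iff_mem] at haQ
          exact haQ
        · rw [← down_up m]
          exact down_mono hQm
      exact up_le_iff.mpr h1.ge
  have hht : (up m).height ≤ 1 :=
    Ideal.height_le_one_of_isPrincipal_of_mem_minimalPrimes _ _ hmin
  by_contra hne
  have h1 : up N < q := lt_of_le_of_ne hNq (Ne.symm hne)
  have h2 : q < up m := by
    refine lt_of_le_of_ne hq ?_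
    intro h
    apply hmN
    rw [← down_up m, ← h, hqN]
  have h3 := Ideal.height_add_one_le_of_lt_of_isPrime h1
  have h4 := Ideal.height_add_one_le_of_lt_of_isPrime h2
  have h5 : (1 : ℕ∞) + 1 ≤ 1 := by
    calc (1 : ℕ∞) + 1 ≤ ((up N).height + 1) + 1 := by gcongr; exact le_add_self
      _ ≤ q.height + 1 := by gcongr
      _ ≤ (up m).height := h4
      _ ≤ 1 := hht
  exact absurd h5 (by decide)

end

lemma exists_approx {R S : Type*} [CommRing R] [CommRing S] (ψ : R →+* S) (I : Ideal S)
    (h : ∀ s : S, ∃ r : R, s - ψ r ∈ I) (f : S[X]) :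
    ∃ g : R[X], f - mapRingHom ψ g ∈ I.map (C : S →+* S[X]) := by
  induction f using Polynomial.induction_on' with
  | add p q hp hq =>
    obtain ⟨a, ha⟩ := hp
    obtain ⟨b, hb⟩ := hq
    refine ⟨a + b, ?_⟩
    have := Ideal.add_mem _ ha hb
    rw [map_add]
    convert this using 1
    ring
  | monomial n a =>
    obtain ⟨r, hr⟩ := h a
    refine ⟨monomial n r, ?_⟩
    have h1 : (monomial n a : S[X]) - mapRingHom ψ (monomial n r) = C (a - ψ r) * X ^ n := by
      simp [coe_mapRingHom, ← C_mul_X_pow_eq_monomial, map_sub, sub_mul]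
    rw [h1]
    exact Ideal.mul_mem_right _ _ (Ideal.mem_map_of_mem _ hr)

/-- the map `ℂ[s,t] → A[s,t]` -/
noncomputable abbrev bc (A : Type*) [CommRing A] [Algebra ℂ A] : ℂ[X][X] →+* A[X][X] :=
  mapRingHom (mapRingHom (algebraMap ℂ A))

lemma eq_up_of_comap_eq_bot {A : Type*} [CommRing A] [Algebra ℂ A] (m : Ideal A)
    (hsurj : ∀ a : A, ∃ c : ℂ, a - algebraMap ℂ A c ∈ m) (q : Ideal A[X][X])
    (hm : m ≤ down q) (hq : q.comap (bc A) = ⊥) : q = up m := by
  refine le_antisymm ?_ (up_le_iff.mpr hm)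
  intro f hf
  obtain ⟨g, hg⟩ := exists_approx (mapRingHom (algebraMap ℂ A)) (m.map C)
    (exists_approx (algebraMap ℂ A) m hsurj) f
  have hg' : bc A g ∈ q := by
    have h1 : f - bc A g ∈ q := (up_le_iff.mpr hm) hg
    have := Ideal.sub_mem _ hf h1
    simpa using this
  have hg0 : g = 0 := by
    have : g ∈ q.comap (bc A) := hg'
    rw [hq] at this
    simpa using this
  rw [hg0, map_zero, sub_zero] at hg
  exact hg

lemma comap_bc_up {A : Type*} [CommRing A] [Algebra ℂ A] (m : Ideal A) (hm : m ≠ ⊤) :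
    (up m).comap (bc A) = ⊥ := by
  rw [eq_bot_iff]
  intro g hg
  rw [Ideal.mem_comap, up, Ideal.mem_map_C_iff] at hg
  rw [Ideal.mem_bot]
  ext i j
  have h1 := hg i
  rw [Ideal.mem_map_C_iff] at h1
  have h2 := h1 j
  simp only [coe_mapRingHom, coeff_map] at h2
  rw [coeff_zero, coeff_zero]
  by_contra hne
  apply hm
  rw [Ideal.eq_top_iff_one]
  have := Ideal.mul_mem_left m (algebraMap ℂ A ((g.coeff i).coeff j)⁻¹) h2
  rwa [← map_mul, inv_mul_cancel₀ hne, map_one] at this

end Pool.Agent.Helper947
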