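import Mathlib
import Pool.Agent.Helper947.T7

namespace Pool.Agent.Helper947

open Polynomial Algebra

/-- evaluation of a two-variable polynomial -/
noncomputable def ev2 {D : Type*} [CommRing D] [Algebra ℂ D] (a b : D) : ℂ[X][X] →+* D :=
  eval₂RingHom (aeval a : ℂ[X] →ₐ[ℂ] D).toRingHom b

lemma ev2_apply {D : Type*} [CommRing D] [Algebra ℂ D] (a b : D) (f : ℂ[X][X]) :
    ev2 a b f = eval₂ (aeval a : ℂ[X] →ₐ[ℂ] D).toRingHom b f := rfl

lemma ev2_comp {D E : Type*} [CommRing D] [Algebra ℂ D] [CommRing E] [Algebra ℂ E]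
    (φ : D →ₐ[ℂ] E) (a b : D) : φ.toRingHom.comp (ev2 a b) = ev2 (φ a) (φ b) := by
  apply Polynomial.ringHom_ext'
  · apply Polynomial.ringHom_ext
    · intro c; simp [ev2]
    · simp [ev2]
  · simp [ev2]

lemma transc_of_ev2 {K : Type*} [Field K] [Algebra ℂ K] {a b : K}
    (h : ∀ f, ev2 a b f = 0 → f = 0) : Function.Injective (aeval a : ℂ[X] →ₐ[ℂ] K) := by
  rw [injective_iff_map_eq_zero]
  intro p hp
  have := h (C p) (by rw [ev2_apply, eval₂_C]; exact hp)
  simpa using this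

lemma alg_of_ev2 {K : Type*} [Field K] [Algebra ℂ K] {a b : K}
    (ha : Function.Injective (aeval a : ℂ[X] →ₐ[ℂ] K))
    (h : ∃ f, f ≠ 0 ∧ ev2 a b f = 0) : IsAlgebraic (Algebra.adjoin ℂ {a}) b := by
  obtain ⟨f, hf, hf0⟩ := h
  let θ : ℂ[X] →ₐ[ℂ] Algebra.adjoin ℂ {a} :=
    aeval ⟨a, Algebra.subset_adjoin rfl⟩
  have hθ : ∀ p, ((θ p : Algebra.adjoin ℂ {a}) : K) = aeval a p := by
    intro p
    have : (Subalgebra.val _).comp θ = aeval a := by
      ext; simp [θ]
    exact congrArg (fun g => g p) this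
  have hθi : Function.Injective θ := by
    intro p q hpq
    apply ha
    rw [← hθ, ← hθ, hpq]
  refine ⟨f.map θ.toRingHom, ?_, ?_⟩
  · rw [Ne, Polynomial.map_eq_zero_iff (by exact hθi)]
    exact hf
  · rw [aeval_def, eval₂_map]
    rw [ev2_apply] at hf0
    have hc : (algebraMap (Algebra.adjoin ℂ {a}) K).comp θ.toRingHom =
        (aeval a : ℂ[X] →ₐ[ℂ] K).toRingHom := RingHom.ext fun p => hθ p
    rw [hc]
    exact hf0

lemma algInd_of_ev2 {K : Type*} [Field K] [Algebra ℂ K] {a b : K}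
    (h : ∀ f, ev2 a b f = 0 → f = 0) : AlgebraicIndependent ℂ ![a, b] := by
  rw [algebraicIndependent_iff_injective_aeval, injective_iff_map_eq_zero]
  intro p hp
  let φ : MvPolynomial (Fin 2) ℂ →ₐ[ℂ] ℂ[X][X] := MvPolynomial.aeval ![C X, X]
  let ψ : ℂ[X][X] →+* MvPolynomial (Fin 2) ℂ := ev2 (MvPolynomial.X 0) (MvPolynomial.X 1)
  have h1 : ∀ p, ψ (φ p) = p := by
    intro p
    have : ψ.comp φ.toRingHom = RingHom.id _ := by
      apply MvPolynomial.ringHom_ext
      · intro r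
        simp [φ, ψ, ev2, IsScalarTower.algebraMap_apply ℂ ℂ[X] ℂ[X][X]]
      · intro i
        fin_cases i <;> simp [φ, ψ, ev2]
    exact congrArg (fun g => g p) this
  have h2 : ∀ p, ev2 a b (φ p) = MvPolynomial.aeval ![a, b] p := by
    intro p
    have : (ev2 a b).comp φ.toRingHom = (MvPolynomial.aeval ![a, b]).toRingHom := by
      apply MvPolynomial.ringHom_ext
      · intro r
        simp [φ, ev2, IsScalarTower.algebraMap_apply ℂ ℂ[X] ℂ[X][X]]
      · intro i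
        fin_cases i <;> simp [φ, ev2]
    exact congrArg (fun g => g p) this
  have h3 := h (φ p) (by rw [h2]; exact hp)
  rw [← h1 p, h3, map_zero]

theorem no_matroid {K : Type} [Field K] [Algebra ℂ K] {x0 x1 x2 x3 : K}
    (h01 : ∀ f, ev2 x0 x1 f = 0 → f = 0) (h23 : ∀ f, ev2 x2 x3 f = 0 → f = 0)
    (h02 : ∃ f, f ≠ 0 ∧ ev2 x0 x2 f = 0) (h03 : ∃ f, f ≠ 0 ∧ ev2 x0 x3 f = 0) : False := by
  have ht := transc_of_ev2 h01
  have h2 := alg_of_ev2 ht h02
  have h3 := alg_of_ev2 ht h03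
  have hi := algInd_of_ev2 h23
  let S := Algebra.adjoin ℂ ({x0} : Set K)
  let E := Subalgebra.algebraicClosure S K
  let y2 : E := ⟨x2, h2⟩
  let y3 : E := ⟨x3, h3⟩
  have hiE : AlgebraicIndependent ℂ ![y2, y3] := by
    have h : ((E.val.restrictScalars ℂ) : E →ₐ[ℂ] K) ∘ ![y2, y3] = ![x2, x3] := by
      funext i
      fin_cases i <;> rfl
    rw [← h] at hi
    exact AlgebraicIndependent.of_comp _ hi
  have h1 : Cardinal.mk (Fin 2) ≤ Algebra.trdeg ℂ E := by
    have := hiE.lift_cardinalMk_le_trdeg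
    simpa using this
  have h2' : Algebra.trdeg ℂ S + Algebra.trdeg S E = Algebra.trdeg ℂ E :=
    trdeg_add_eq ..
  have halg : Algebra.IsAlgebraic S E := by
    refine ⟨fun y => ?_⟩
    have hy : IsAlgebraic S (y : K) := y.2
    obtain ⟨p, hp, hp0⟩ := hy
    refine ⟨p, hp, ?_⟩
    apply Subtype.ext
    exact ((aeval_algHom_apply E.val y p).symm.trans hp0).trans (ZeroMemClass.coe_zero E).symm
  rw [trdeg_eq_zero (R := S) (A := E), add_zero] at h2'
  have h3' : Algebra.trdeg ℂ S ≤ 1 := by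
    let θ : ℂ[X] →ₐ[ℂ] S := aeval ⟨x0, Algebra.subset_adjoin rfl⟩
    have hθ : Algebra.trdeg ℂ ℂ[X] = 1 := Polynomial.trdeg_of_isDomain
    rw [← hθ]
    refine trdeg_le_of_surjective θ ?_
    intro y
    have hy : (y : K) ∈ Algebra.adjoin ℂ ({x0} : Set K) := y.2
    rw [Algebra.adjoin_singleton_eq_range_aeval] at hy
    obtain ⟨p, hp⟩ := hy
    refine ⟨p, Subtype.ext ?_⟩
    rw [← hp]
    exact (aeval_algHom_apply S.val _ p).symm
  rw [← h2'] at h1
  have h4 := h1.trans h3'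
  simp at h4

end Pool.Agent.Helper947
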