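import Mathlib
import Pool.Agent.Helper947.T6
import Pool.Agent.Helper947.T8

open CategoryTheory CategoryTheory.Limits AlgebraicGeometry Polynomial

namespace Pool.Agent.Helper947

attribute [local instance] MvPolynomial.gradedAlgebra

instance : IsProper X2.str := by unfold X2.str; infer_instance
instance : IsProper X3.str := by unfold X3.str; infer_instance
instance : IsProper X4.str := by unfold X4.str; infer_instance

noncomputable instance instCommRingR3 : CommRing ℂ[X][X][X] := @Polynomial.commRing ℂ[X][X] _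

/-- `ℂ[z₀,z₁,z₂,z₃]` -/
abbrev R4 : Type := ℂ[X][X][X][X]

/-- the coordinates -/
noncomputable def zz : Fin 4 → R4 := ![C (C (C X)), C (C X), C X, X]

noncomputable def chart2 (a b : ℂ) : Spec (CommRingCat.of ℂ[X][X]) ⟶ X2 :=
  prodChart P1.str (chart a) (chart_str a) b

lemma chart2_str (a b : ℂ) : chart2 a b ≫ X2.str =
    Spec.map (CommRingCat.ofHom (algebraMap ℂ ℂ[X][X])) := prodChart_str ..

noncomputable def chart3 (a b c : ℂ) : Spec (CommRingCat.of ℂ[X][X][X]) ⟶ X3 :=
  prodChart X2.str (chart2 a b) (chart2_str a b) c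

lemma chart3_str (a b c : ℂ) : chart3 a b c ≫ X3.str =
    Spec.map (CommRingCat.ofHom (algebraMap ℂ ℂ[X][X][X])) := prodChart_str ..

noncomputable def chart4 (l : Fin 4 → ℂ) : Spec (CommRingCat.of R4) ⟶ X4 :=
  prodChart X3.str (chart3 (l 0) (l 1) (l 2)) (chart3_str (l 0) (l 1) (l 2)) (l 3)

instance (a b : ℂ) : IsOpenImmersion (chart2 a b) := by unfold chart2; infer_instance
instance (a b c : ℂ) : IsOpenImmersion (chart3 a b c) := by unfold chart3; infer_instance
instance (l : Fin 4 → ℂ) : IsOpenImmersion (chart4 l) := by unfold chart4; infer_instance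

lemma chart4_str (l : Fin 4 → ℂ) : chart4 l ≫ X4.str =
    Spec.map (CommRingCat.ofHom (algebraMap ℂ R4)) := prodChart_str ..

/-- `ℂ[X] → D`, `X ↦ a` -/
noncomputable def ev1 {D : Type*} [CommRing D] [Algebra ℂ D] (a : D) : ℂ[X] →+* D :=
  (aeval a : ℂ[X] →ₐ[ℂ] D).toRingHom

lemma SpecMap_comp_eq {A B D : Type} [CommRing A] [CommRing B] [CommRing D] (f : A →+* B)
    (g : B →+* D) (h : A →+* D) (e : g.comp f = h) :
    Spec.map (CommRingCat.ofHom g) ≫ Spec.map (CommRingCat.ofHom f) =
      Spec.map (CommRingCat.ofHom h) := by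
  rw [← Spec.map_comp, ← e]; rfl

lemma ev2_comp_C {D : Type*} [CommRing D] [Algebra ℂ D] (a b : D) :
    (ev2 a b).comp C = ev1 a := by
  apply Polynomial.ringHom_ext <;> simp [ev1, ev2]

lemma ev2_comp_map {D : Type*} [CommRing D] [Algebra ℂ D] (a b : D) :
    (ev2 a b).comp (mapRingHom (algebraMap ℂ ℂ[X])) = ev1 b := by
  apply Polynomial.ringHom_ext
  · intro c
    simp [ev1, ev2]
  · simp [ev1, ev2]

lemma chart2_fst (a b : ℂ) : chart2 a b ≫ pullback.fst P1.str P1.str =
    Spec.map (CommRingCat.ofHom (C : ℂ[X] →+* ℂ[X][X])) ≫ chart a := prodChart_fst ..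

lemma chart2_snd (a b : ℂ) : chart2 a b ≫ pullback.snd P1.str P1.str =
    Spec.map (CommRingCat.ofHom (mapRingHom (algebraMap ℂ ℂ[X]))) ≫ chart b := prodChart_snd ..

lemma evchart2_fst {D : Type} [CommRing D] [Algebra ℂ D] (x y : D) (a b : ℂ) :
    (Spec.map (CommRingCat.ofHom (ev2 x y)) ≫ chart2 a b) ≫ pullback.fst P1.str P1.str =
      Spec.map (CommRingCat.ofHom (ev1 x)) ≫ chart a := by
  rw [Category.assoc, chart2_fst, ← Category.assoc]
  congr 1
  exact SpecMap_comp_eq _ _ _ (ev2_comp_C x y)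

lemma evchart2_snd {D : Type} [CommRing D] [Algebra ℂ D] (x y : D) (a b : ℂ) :
    (Spec.map (CommRingCat.ofHom (ev2 x y)) ≫ chart2 a b) ≫ pullback.snd P1.str P1.str =
      Spec.map (CommRingCat.ofHom (ev1 y)) ≫ chart b := by
  rw [Category.assoc, chart2_snd, ← Category.assoc]
  congr 1
  exact SpecMap_comp_eq _ _ _ (ev2_comp_map x y)

lemma proj_str (i : Fin 4) : proj i ≫ P1.str = X4.str := by
  fin_cases i
  · simp [proj]
  · simp only [proj]
    change (pullback.fst X3.str P1.str ≫ pullback.fst X2.str P1.str ≫ pullback.snd P1.str P1.str) ≫ P1.str = _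
    rw [Category.assoc, Category.assoc, ← pullback.condition]
  · change (pullback.fst X3.str P1.str ≫ pullback.snd X2.str P1.str) ≫ P1.str = _
    rw [Category.assoc, ← pullback.condition]
  · change pullback.snd X3.str P1.str ≫ P1.str = _
    rw [← pullback.condition]

lemma chart4_proj (l : Fin 4 → ℂ) (i : Fin 4) : chart4 l ≫ proj i =
    Spec.map (CommRingCat.ofHom (ev1 (zz i))) ≫ chart (l i) := by
  fin_cases i
  · change chart4 l ≫ (pullback.fst X3.str P1.str ≫ pullback.fst X2.str P1.str ≫ pullback.fst P1.str P1.str) = _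
    rw [chart4, prodChart_fst_assoc, chart3, prodChart_fst_assoc, chart2_fst]
    simp only [← Category.assoc]
    congr 1
    rw [← Spec.map_comp, ← Spec.map_comp]
    congr 1
    ext x
    · simp [ev1, zz]
    · simp [ev1, zz]
  · change chart4 l ≫ (pullback.fst X3.str P1.str ≫ pullback.fst X2.str P1.str ≫ pullback.snd P1.str P1.str) = _
    rw [chart4, prodChart_fst_assoc, chart3, prodChart_fst_assoc, chart2_snd]
    simp only [← Category.assoc]
    congr 1
    rw [← Spec.map_comp, ← Spec.map_comp]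
    congr 1
    ext x
    · simp [ev1, zz]
    · simp [ev1, zz]
  · change chart4 l ≫ (pullback.fst X3.str P1.str ≫ pullback.snd X2.str P1.str) = _
    rw [chart4, prodChart_fst_assoc, chart3, prodChart_snd]
    simp only [← Category.assoc]
    congr 1
    rw [← Spec.map_comp]
    congr 1
    ext x
    · simp [ev1, zz]
    · simp [ev1, zz]
  · change chart4 l ≫ (pullback.snd X3.str P1.str) = _
    rw [chart4, prodChart_snd]
    rfl

/-- the projection of `(P¹)⁴` to two factors -/
noncomputable def rho (i j : Fin 4) : X4 ⟶ X2 :=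
  pullback.lift (proj i) (proj j) ((proj_str i).trans (proj_str j).symm)

@[reassoc]
lemma rho_fst (i j : Fin 4) : rho i j ≫ pullback.fst P1.str P1.str = proj i := by
  rw [rho, pullback.lift_fst]

@[reassoc]
lemma rho_snd (i j : Fin 4) : rho i j ≫ pullback.snd P1.str P1.str = proj j := by
  rw [rho, pullback.lift_snd]

lemma chart4_rho (l : Fin 4 → ℂ) (i j : Fin 4) : chart4 l ≫ rho i j =
    Spec.map (CommRingCat.ofHom (ev2 (zz i) (zz j))) ≫ chart2 (l i) (l j) := by
  apply pullback.hom_ext
  · rw [Category.assoc, rho_fst, chart4_proj, evchart2_fst]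
  · rw [Category.assoc, rho_snd, chart4_proj, evchart2_snd]

lemma chart4_rho_apply (l : Fin 4 → ℂ) (i j : Fin 4) (P : PrimeSpectrum R4) :
    rho i j (chart4 l P) = chart2 (l i) (l j) (PrimeSpectrum.comap (ev2 (zz i) (zz j)) P) := by
  have h := congrArg (fun f => f P) (chart4_rho l i j)
  exact h

end Pool.Agent.Helper947
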