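import Mathlib
import Pool.Agent.Helper947.T9

open CategoryTheory CategoryTheory.Limits AlgebraicGeometry Polynomial

namespace Pool.Agent.Helper947

attribute [local instance] MvPolynomial.gradedAlgebra

section
variable {C₀ : Scheme.{0}} (c : C₀ ⟶ SpecC)

noncomputable abbrev CP : Scheme.{0} := pullback c P1.str
noncomputable abbrev CP.str : CP c ⟶ SpecC := pullback.fst c P1.str ≫ c
noncomputable abbrev CPP : Scheme.{0} := pullback (CP.str c) P1.str
/-- projection to the base -/
noncomputable abbrev CPP.base : CPP c ⟶ C₀ := pullback.fst (CP.str c) P1.str ≫ pullback.fst c P1.str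

instance : IsSeparated (CPP.base c) := by
  unfold CPP.base; infer_instance

/-- projection to `P¹ × P¹` -/
noncomputable def tau : CPP c ⟶ X2 :=
  pullback.lift (pullback.fst (CP.str c) P1.str ≫ pullback.snd c P1.str)
    (pullback.snd (CP.str c) P1.str) (by
      rw [Category.assoc, ← pullback.condition, ← pullback.condition])

lemma tau_fst : tau c ≫ pullback.fst P1.str P1.str =
    pullback.fst (CP.str c) P1.str ≫ pullback.snd c P1.str := by
  rw [tau, pullback.lift_fst]

lemma tau_snd : tau c ≫ pullback.snd P1.str P1.str = pullback.snd (CP.str c) P1.str := by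
  rw [tau, pullback.lift_snd]

variable {A : Type} [CommRing A] [Algebra ℂ A]
  (j : Spec (CommRingCat.of A) ⟶ C₀)
  (hj : j ≫ c = Spec.map (CommRingCat.ofHom (algebraMap ℂ A))) (a b : ℂ)

noncomputable def kap1 : Spec (CommRingCat.of A[X]) ⟶ CP c := prodChart c j hj a

lemma kap1_str : kap1 c j hj a ≫ CP.str c = Spec.map (CommRingCat.ofHom (algebraMap ℂ A[X])) :=
  prodChart_str ..

noncomputable def kap : Spec (CommRingCat.of A[X][X]) ⟶ CPP c :=
  prodChart (CP.str c) (kap1 c j hj a) (kap1_str c j hj a) b

instance [IsOpenImmersion j] : IsOpenImmersion (kap1 c j hj a) := by unfold kap1; infer_instance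
instance [IsOpenImmersion j] : IsOpenImmersion (kap c j hj a b) := by unfold kap; infer_instance

@[reassoc]
lemma kap_base : kap c j hj a b ≫ CPP.base c =
    Spec.map (CommRingCat.ofHom ((C : A[X] →+* A[X][X]).comp (C : A →+* A[X]))) ≫ j := by
  rw [CPP.base, kap, prodChart_fst_assoc, kap1, prodChart_fst, ← Category.assoc]
  congr 1
  rw [← Spec.map_comp]; rfl

lemma kap_tau : kap c j hj a b ≫ tau c =
    Spec.map (CommRingCat.ofHom (bc A)) ≫ chart2 a b := by
  apply pullback.hom_ext
  · rw [Category.assoc, tau_fst, kap, prodChart_fst_assoc, kap1, prodChart_snd, Category.assoc,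
      chart2_fst, ← Category.assoc, ← Category.assoc]
    congr 1
    rw [← Spec.map_comp, ← Spec.map_comp]
    congr 1
    ext x
    · simp
    · simp
  · rw [Category.assoc, tau_snd, kap, prodChart_snd, Category.assoc, chart2_snd, ← Category.assoc]
    congr 1
    rw [← Spec.map_comp]
    congr 1
    ext x
    · simp
    · simp

lemma range_kap [IsOpenImmersion j] (x : CPP c) : x ∈ Set.range (kap c j hj a b) ↔
    CPP.base c x ∈ Set.range j ∧ pullback.fst P1.str P1.str (tau c x) ∈ Set.range (chart a) ∧
      pullback.snd P1.str P1.str (tau c x) ∈ Set.range (chart b) := by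
  have h1 : pullback.fst P1.str P1.str (tau c x) =
      pullback.snd c P1.str (pullback.fst (CP.str c) P1.str x) :=
    congrArg (fun f => f x) (tau_fst c)
  have h2 : pullback.snd P1.str P1.str (tau c x) = pullback.snd (CP.str c) P1.str x :=
    congrArg (fun f => f x) (tau_snd c)
  rw [h1, h2, kap, range_prodChart, kap1, range_prodChart]
  simp only [Set.mem_inter_iff, Set.mem_preimage]
  rw [and_assoc]
  rfl

end

end Pool.Agent.Helper947
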