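import Mathlib
import Pool.Agent.Helper947.T10

open CategoryTheory CategoryTheory.Limits AlgebraicGeometry Polynomial

namespace Pool.Agent.Helper947

attribute [local instance] MvPolynomial.gradedAlgebra

section
variable {C₀ : Scheme.{0}} {c : C₀ ⟶ SpecC} {F : Scheme.{0}} {f : F ⟶ C₀} {r : F ⟶ X4}
  (h : r ≫ X4.str = f ≫ c) (i j : Fin 4)

include h in
lemma qq_aux1 : f ≫ c = (r ≫ proj i) ≫ P1.str := by
  rw [Category.assoc, proj_str, h]

include h in
lemma qq_aux2 : pullback.lift f (r ≫ proj i) (qq_aux1 h i) ≫ CP.str c = (r ≫ proj j) ≫ P1.str := by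
  rw [Category.assoc, proj_str, h, CP.str, ← Category.assoc, pullback.lift_fst]

/-- the map `(f, r_i, r_j)` to `C × P¹ × P¹` -/
noncomputable def qq : F ⟶ CPP c :=
  pullback.lift (pullback.lift f (r ≫ proj i) (qq_aux1 h i)) (r ≫ proj j) (qq_aux2 h i j)

lemma qq_base : qq h i j ≫ CPP.base c = f := by
  rw [qq, CPP.base, ← Category.assoc, pullback.lift_fst, pullback.lift_fst]

lemma qq_tau : qq h i j ≫ tau c = r ≫ rho i j := by
  apply pullback.hom_ext
  · rw [Category.assoc, tau_fst, Category.assoc, rho_fst, qq, ← Category.assoc, pullback.lift_fst,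
      pullback.lift_snd]
  · rw [Category.assoc, tau_snd, Category.assoc, rho_snd, qq, pullback.lift_snd]

lemma isProper_qq [IsProper f] : IsProper (qq h i j) := by
  have : IsProper (qq h i j ≫ CPP.base c) := by rw [qq_base]; infer_instance
  exact IsProper.of_comp (qq h i j) (CPP.base c)

end

/-- Core going-down/closedness lemma. -/
lemma mem_range_of_flat {A : Type} [CommRing A] [IsNoetherianRing A] (N : Ideal A) [N.IsPrime]
    (hN : ∀ P : Ideal A, P.IsPrime → N ≤ P) (hdim : Ring.KrullDimLE 1 A)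
    {W : Scheme.{0}} (p : W ⟶ Spec (CommRingCat.of A[X][X])) (hp : IsClosed (Set.range p))
    [Flat (p ≫ Spec.map (CommRingCat.ofHom ((C : A[X] →+* A[X][X]).comp (C : A →+* A[X]))))]
    (m : PrimeSpectrum A) (w : W) (hw : (p w : PrimeSpectrum A[X][X]).asIdeal = up m.asIdeal)
    (P : PrimeSpectrum A) : ∃ w' : W, (p w' : PrimeSpectrum A[X][X]).asIdeal = up P.asIdeal := by
  have hg := Flat.generalizingMap
    (p ≫ Spec.map (CommRingCat.ofHom ((C : A[X] →+* A[X][X]).comp (C : A →+* A[X]))))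
  have hval : ∀ v : W, (p ≫ Spec.map (CommRingCat.ofHom
      ((C : A[X] →+* A[X][X]).comp (C : A →+* A[X])))) v =
      (⟨down (p v : PrimeSpectrum A[X][X]).asIdeal, inferInstance⟩ : PrimeSpectrum A) :=
    fun v => rfl
  have h1 : ((⟨N, inferInstance⟩ : PrimeSpectrum A) : Spec (CommRingCat.of A)) ⤳
      (p ≫ Spec.map (CommRingCat.ofHom ((C : A[X] →+* A[X][X]).comp (C : A →+* A[X])))) w := by
    rw [hval, ← PrimeSpectrum.le_iff_specializes]
    exact hN _ inferInstance
  obtain ⟨v, hv, hv'⟩ := hg h1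
  rw [hval] at hv'
  have h2 : down (p v : PrimeSpectrum A[X][X]).asIdeal = N := congrArg PrimeSpectrum.asIdeal hv'
  have h3 : (p v : PrimeSpectrum A[X][X]) ⤳ p w := hv.map p.continuous
  have h3' := (PrimeSpectrum.le_iff_specializes (p v : PrimeSpectrum A[X][X]) (p w)).mpr h3
  have h4 : (p v : PrimeSpectrum A[X][X]).asIdeal ≤ up m.asIdeal := by
    rw [← hw]; exact h3'
  have h5 := eq_up_of_le N hN hdim m.asIdeal (p v : PrimeSpectrum A[X][X]).asIdeal h4 h2
  have h6 : (p v : PrimeSpectrum A[X][X]) ⤳ (⟨up P.asIdeal, inferInstance⟩ : PrimeSpectrum A[X][X]) := by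
    refine (PrimeSpectrum.le_iff_specializes (p v : PrimeSpectrum A[X][X]) _).mp ?_
    change (p v : PrimeSpectrum A[X][X]).asIdeal ≤ up P.asIdeal
    rw [h5]
    exact Ideal.map_mono (Ideal.map_mono (hN _ inferInstance))
  obtain ⟨w', hw'⟩ := hp.stableUnderSpecialization h6 ⟨v, rfl⟩
  exact ⟨w', congrArg PrimeSpectrum.asIdeal hw'⟩

section
variable {C₀ : Scheme.{0}} {c : C₀ ⟶ SpecC} {F : Scheme.{0}} {f : F ⟶ C₀} {r : F ⟶ X4}
  (h : r ≫ X4.str = f ≫ c) (i j : Fin 4)
  {A : Type} [CommRing A] [Algebra ℂ A]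
  (jA : Spec (CommRingCat.of A) ⟶ C₀) [IsOpenImmersion jA]
  (hj : jA ≫ c = Spec.map (CommRingCat.ofHom (algebraMap ℂ A))) (a b : ℂ)

/-- the point `up P` -/
noncomputable def upPt (P : PrimeSpectrum A) : PrimeSpectrum A[X][X] :=
  ⟨up P.asIdeal, inferInstance⟩

lemma key_edge [IsNoetherianRing A] (N : Ideal A) [N.IsPrime]
    (hN : ∀ P : Ideal A, P.IsPrime → N ≤ P) (hdim : Ring.KrullDimLE 1 A)
    [IsProper f] [Flat f]
    (m : PrimeSpectrum A) (x0 : F) (hx0 : qq h i j x0 = kap c jA hj a b (upPt m))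
    (P : PrimeSpectrum A) : ∃ x : F, qq h i j x = kap c jA hj a b (upPt P) := by
  obtain ⟨w, hw1, hw2⟩ := Scheme.Pullback.exists_preimage_pullback (f := qq h i j)
    (g := kap c jA hj a b) x0 (upPt m) hx0
  have hprop := isProper_qq h i j
  let p := pullback.snd (qq h i j) (kap c jA hj a b)
  have hflat : Flat (p ≫ Spec.map (CommRingCat.ofHom ((C : A[X] →+* A[X][X]).comp (C : A →+* A[X])))) := by
    apply MorphismProperty.of_postcomp @Flat _ jA (inferInstance : IsOpenImmersion jA)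
    have h1 : (p ≫ Spec.map (CommRingCat.ofHom ((C : A[X] →+* A[X][X]).comp (C : A →+* A[X])))) ≫ jA
        = pullback.fst (qq h i j) (kap c jA hj a b) ≫ f := by
      rw [Category.assoc, ← kap_base c jA hj a b, ← Category.assoc, ← pullback.condition,
        Category.assoc, qq_base]
    rw [h1]
    infer_instance
  have hclosed : IsClosed (Set.range p) := p.isClosedMap.isClosed_range
  obtain ⟨w', hw'⟩ := mem_range_of_flat N hN hdim p hclosed m w
    (congrArg PrimeSpectrum.asIdeal hw2) P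
  refine ⟨pullback.fst (qq h i j) (kap c jA hj a b) w', ?_⟩
  have h2 : (p w' : PrimeSpectrum A[X][X]) = upPt P := PrimeSpectrum.ext hw'
  rw [← h2]
  have h3 := congrArg (fun g => g w') (pullback.condition (f := qq h i j) (g := kap c jA hj a b))
  exact h3

end

end Pool.Agent.Helper947
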