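import Mathlib
import Pool.Agent.Helper947.T11

open CategoryTheory CategoryTheory.Limits AlgebraicGeometry Polynomial

namespace Pool.Agent.Helper947

attribute [local instance] MvPolynomial.gradedAlgebra

/-- generic point of the chart -/
noncomputable def bot2 : PrimeSpectrum ℂ[X][X] := ⟨⊥, Ideal.isPrime_bot⟩

/-- the point `(1,1)` of the chart -/
noncomputable def one2 : PrimeSpectrum ℂ[X][X] :=
  PrimeSpectrum.comap ((evalRingHom (1 : ℂ)).comp (evalRingHom (1 : ℂ[X]))) ⊥

lemma specializes_bot2 {a b : ℂ} {x : X2} (h : x ⤳ chart2 a b bot2) : x = chart2 a b bot2 := by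
  obtain ⟨q, hq⟩ := ((chart2 a b).isOpenEmbedding.isOpen_range.stableUnderGeneralization) h ⟨_, rfl⟩
  rw [← hq] at h ⊢
  have h1 := (chart2 a b).isOpenEmbedding.isInducing.specializes_iff.mp h
  have h2 := (PrimeSpectrum.le_iff_specializes (q : PrimeSpectrum ℂ[X][X]) bot2).mpr h1
  congr 1
  apply PrimeSpectrum.ext
  exact le_antisymm h2 bot_le

section
variable {C₀ : Scheme.{0}} {c : C₀ ⟶ SpecC} {F : Scheme.{0}} {f : F ⟶ C₀} {r : F ⟶ X4}
  (h : r ≫ X4.str = f ≫ c) (i j : Fin 4)
  {A : Type} [CommRing A] [Algebra ℂ A]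
  (jA : Spec (CommRingCat.of A) ⟶ C₀) [IsOpenImmersion jA]
  (hj : jA ≫ c = Spec.map (CommRingCat.ofHom (algebraMap ℂ A))) (a b : ℂ)

lemma qq_base_apply (x : F) : CPP.base c (qq h i j x) = f x :=
  congrArg (fun g => g x) (qq_base h i j)

lemma qq_tau_apply (x : F) : tau c (qq h i j x) = rho i j (r x) :=
  congrArg (fun g => g x) (qq_tau h i j)

omit [IsOpenImmersion jA] in
lemma kap_base_apply (q : PrimeSpectrum A[X][X]) : CPP.base c (kap c jA hj a b q) =
    jA (⟨down q.asIdeal, inferInstance⟩ : PrimeSpectrum A) :=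
  congrArg (fun g => g q) (kap_base c jA hj a b)

omit [IsOpenImmersion jA] in
lemma kap_tau_apply (q : PrimeSpectrum A[X][X]) : tau c (kap c jA hj a b q) =
    chart2 a b (PrimeSpectrum.comap (bc A) q) :=
  congrArg (fun g => g q) (kap_tau c jA hj a b)

omit [IsOpenImmersion jA] in
lemma kap_tau_upPt (P : PrimeSpectrum A) : tau c (kap c jA hj a b (upPt P)) = chart2 a b bot2 := by
  rw [kap_tau_apply]
  congr 1
  apply PrimeSpectrum.ext
  exact comap_bc_up P.asIdeal P.2.ne_top

lemma qq_eq_kap (m : PrimeSpectrum A)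
    (hsurj : ∀ a : A, ∃ c : ℂ, a - algebraMap ℂ A c ∈ m.asIdeal) (x : F) (hx : f x = jA m)
    (hrho : rho i j (r x) = chart2 a b bot2) : qq h i j x = kap c jA hj a b (upPt m) := by
  have hmem : qq h i j x ∈ Set.range (kap c jA hj a b) := by
    rw [range_kap, qq_base_apply, qq_tau_apply, hrho, hx]
    refine ⟨⟨_, rfl⟩, ⟨PrimeSpectrum.comap C bot2, ?_⟩,
      ⟨PrimeSpectrum.comap (mapRingHom (algebraMap ℂ ℂ[X])) bot2, ?_⟩⟩
    · exact (congrArg (fun g => g bot2) (chart2_fst a b)).symm
    · exact (congrArg (fun g => g bot2) (chart2_snd a b)).symm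
  obtain ⟨q, hq⟩ := hmem
  rw [← hq]
  congr 1
  apply PrimeSpectrum.ext
  have h1 := kap_base_apply (c := c) jA hj a b q
  have h2 := kap_tau_apply (c := c) jA hj a b q
  rw [hq, qq_base_apply, hx] at h1
  rw [hq, qq_tau_apply, hrho] at h2
  have h3 := jA.isOpenEmbedding.injective h1
  have h4 := (chart2 a b).isOpenEmbedding.injective h2
  apply eq_up_of_comap_eq_bot m.asIdeal hsurj
  · exact (congrArg PrimeSpectrum.asIdeal h3).le
  · exact (congrArg PrimeSpectrum.asIdeal h4).symm

include h hj in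
lemma edge_generic [IsNoetherianRing A] (N : Ideal A) [N.IsPrime]
    (hN : ∀ P : Ideal A, P.IsPrime → N ≤ P) (hdim : Ring.KrullDimLE 1 A)
    [IsProper f] [Flat f]
    (m : PrimeSpectrum A) (hsurj : ∀ a : A, ∃ c : ℂ, a - algebraMap ℂ A c ∈ m.asIdeal)
    (x0 : F) (hx0 : f x0 = jA m) (hrho : rho i j (r x0) = chart2 a b bot2)
    (P : PrimeSpectrum A) (y : F) (hy : ∀ x : F, f x = jA P → y ⤳ x) :
    rho i j (r y) = chart2 a b bot2 := by
  obtain ⟨x, hx⟩ := key_edge h i j jA hj a b N hN hdim m x0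
    (qq_eq_kap h i j jA hj a b m hsurj x0 hx0 hrho) P
  have h1 : f x = jA P := by
    rw [← qq_base_apply h i j, hx, kap_base_apply]
    congr 1
    apply PrimeSpectrum.ext
    exact down_up _
  have h2 : rho i j (r x) = chart2 a b bot2 := by
    rw [← qq_tau_apply h i j, hx, kap_tau_upPt]
  apply specializes_bot2
  rw [← h2]
  exact ((hy x h1).map r.continuous).map (rho i j).continuous

/-- the section `(1,1)` -/
noncomputable def sec11 (A : Type) [CommRing A] : PrimeSpectrum A → PrimeSpectrum A[X][X] :=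
  PrimeSpectrum.comap ((evalRingHom (1 : A)).comp (evalRingHom (1 : A[X])))

lemma nonedge_generic [IsProper f] (m : PrimeSpectrum A)
    (hsurj : ∀ a : A, ∃ c : ℂ, a - algebraMap ℂ A c ∈ m.asIdeal)
    (hm : kap c jA hj a b (sec11 A m) ∉ Set.range (qq h i j)) (y : F) (hy : f y = jA m) :
    rho i j (r y) ≠ chart2 a b bot2 := by
  intro hcon
  apply hm
  have h1 := qq_eq_kap h i j jA hj a b m hsurj y hy hcon
  have hprop := isProper_qq h i j
  have hclosed : IsClosed (Set.range (qq h i j)) := (qq h i j).isClosedMap.isClosed_range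
  have h2 : upPt m ⤳ sec11 A m := by
    rw [← PrimeSpectrum.le_iff_specializes]
    change up m.asIdeal ≤ (sec11 A m).asIdeal
    rw [up_le_iff]
    intro a ha
    change eval 1 (eval 1 (C (C a))) ∈ m.asIdeal
    simpa using ha
  have h3 : kap c jA hj a b (upPt m) ⤳ kap c jA hj a b (sec11 A m) :=
    Specializes.map h2 (kap c jA hj a b).continuous
  exact hclosed.stableUnderSpecialization h3 ⟨y, h1⟩

omit [IsOpenImmersion jA] in
lemma isOpen_nonedge [IsProper f] :
    IsOpen {m : PrimeSpectrum A | kap c jA hj a b (sec11 A m) ∉ Set.range (qq h i j)} := by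
  have hprop := isProper_qq h i j
  have hclosed : IsClosed (Set.range (qq h i j)) := (qq h i j).isClosedMap.isClosed_range
  have hcont : Continuous (sec11 A) := PrimeSpectrum.continuous_comap _
  exact hclosed.isOpen_compl.preimage ((kap c jA hj a b).continuous.comp hcont)

lemma mem_nonedge [IsProper f] (m : PrimeSpectrum A)
    (hx : ∀ x : F, f x = jA m → rho i j (r x) ≠ chart2 a b one2) :
    kap c jA hj a b (sec11 A m) ∉ Set.range (qq h i j) := by
  rintro ⟨x, hxx⟩
  have h1 : f x = jA m := by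
    rw [← qq_base_apply h i j, hxx, kap_base_apply]
    congr 1
    apply PrimeSpectrum.ext
    ext a
    change eval 1 (eval 1 (C (C a))) ∈ m.asIdeal ↔ _
    simp
  apply hx x h1
  rw [← qq_tau_apply h i j, hxx, kap_tau_apply]
  congr 1
  have h2 : ((evalRingHom (1 : A)).comp (evalRingHom (1 : A[X]))).comp (bc A) =
      (algebraMap ℂ A).comp ((evalRingHom (1 : ℂ)).comp (evalRingHom (1 : ℂ[X]))) := by
    apply Polynomial.ringHom_ext'
    · apply Polynomial.ringHom_ext
      · intro x; simp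
      · simp
    · simp
  have h3 : PrimeSpectrum.comap (algebraMap ℂ A) m = ⊥ := Subsingleton.elim _ _
  rw [one2, sec11, ← h3, ← PrimeSpectrum.comap_comp_apply, ← PrimeSpectrum.comap_comp_apply, h2]

end

end Pool.Agent.Helper947
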