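import Mathlib
import Pool.Agent.Helper947.T12

open CategoryTheory CategoryTheory.Limits AlgebraicGeometry Polynomial

namespace Pool.Agent.Helper947

attribute [local instance] MvPolynomial.gradedAlgebra

lemma range_chart4 (l : Fin 4 → ℂ) (x : X4) : x ∈ Set.range (chart4 l) ↔
    ∀ i, proj i x ∈ Set.range (chart (l i)) := by
  rw [chart4, range_prodChart, chart3, range_prodChart, chart2, range_prodChart]
  simp only [Set.mem_inter_iff, Set.mem_preimage]
  constructor
  · rintro ⟨⟨⟨h0, h1⟩, h2⟩, h3⟩ i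
    fin_cases i
    · exact h0
    · exact h1
    · exact h2
    · exact h3
  · intro h
    exact ⟨⟨⟨h 0, h 1⟩, h 2⟩, h 3⟩

lemma rho_fst_apply (i j : Fin 4) (z : X4) :
    pullback.fst P1.str P1.str (rho i j z) = proj i z :=
  congrArg (fun g => g z) (rho_fst i j)

lemma rho_snd_apply (i j : Fin 4) (z : X4) :
    pullback.snd P1.str P1.str (rho i j z) = proj j z :=
  congrArg (fun g => g z) (rho_snd i j)

lemma chart2_fst_apply (a b : ℂ) (q : PrimeSpectrum ℂ[X][X]) :
    pullback.fst P1.str P1.str (chart2 a b q) = chart a (PrimeSpectrum.comap C q) :=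
  congrArg (fun g => g q) (chart2_fst a b)

lemma chart2_snd_apply (a b : ℂ) (q : PrimeSpectrum ℂ[X][X]) :
    pullback.snd P1.str P1.str (chart2 a b q) =
      chart b (PrimeSpectrum.comap (mapRingHom (algebraMap ℂ ℂ[X])) q) :=
  congrArg (fun g => g q) (chart2_snd a b)

theorem no_point (z : X4) (h01 : rho 0 1 z = chart2 0 0 bot2) (h23 : rho 2 3 z = chart2 0 0 bot2)
    (h02 : rho 0 2 z ≠ chart2 0 0 bot2) (h03 : rho 0 3 z ≠ chart2 0 0 bot2) : False := by
  have hz : z ∈ Set.range (chart4 (fun _ => 0)) := by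
    rw [range_chart4]
    intro i
    fin_cases i
    · have := rho_fst_apply 0 1 z
      rw [h01, chart2_fst_apply] at this
      exact ⟨_, this⟩
    · have := rho_snd_apply 0 1 z
      rw [h01, chart2_snd_apply] at this
      exact ⟨_, this⟩
    · have := rho_fst_apply 2 3 z
      rw [h23, chart2_fst_apply] at this
      exact ⟨_, this⟩
    · have := rho_snd_apply 2 3 z
      rw [h23, chart2_snd_apply] at this
      exact ⟨_, this⟩
  obtain ⟨Q, rfl⟩ := hz
  rw [chart4_rho_apply] at h01 h23 h02 h03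
  have g01 := (chart2 0 0).isOpenEmbedding.injective h01
  have g23 := (chart2 0 0).isOpenEmbedding.injective h23
  have g02 : PrimeSpectrum.comap (ev2 (zz 0) (zz 2)) Q ≠ bot2 := fun h => h02 (by rw [h])
  have g03 : PrimeSpectrum.comap (ev2 (zz 0) (zz 3)) Q ≠ bot2 := fun h => h03 (by rw [h])
  let Q' : Ideal R4 := (Q : PrimeSpectrum R4).asIdeal
  have hQ' : Q'.IsPrime := (Q : PrimeSpectrum R4).isPrime
  let K := FractionRing (R4 ⧸ Q')
  let φ : R4 →ₐ[ℂ] K := (IsScalarTower.toAlgHom ℂ (R4 ⧸ Q') K).comp (Ideal.Quotient.mkₐ ℂ Q')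
  have hφ : ∀ p, φ p = 0 ↔ p ∈ Q' := by
    intro p
    change algebraMap (R4 ⧸ Q') K (Ideal.Quotient.mk Q' p) = 0 ↔ _
    rw [← Ideal.Quotient.eq_zero_iff_mem]
    exact (IsFractionRing.injective (R4 ⧸ Q') K).eq_iff' (map_zero _)
  have hev : ∀ i j f, ev2 (φ (zz i)) (φ (zz j)) f = 0 ↔
      f ∈ (PrimeSpectrum.comap (ev2 (zz i) (zz j)) Q).asIdeal := by
    intro i j f
    rw [← ev2_comp φ]
    exact hφ _
  have hne : ∀ p : PrimeSpectrum ℂ[X][X], p ≠ bot2 → ∃ f, f ≠ 0 ∧ f ∈ p.asIdeal := by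
    intro p hp
    by_contra hcon
    push Not at hcon
    apply hp
    apply PrimeSpectrum.ext
    refine le_antisymm ?_ bot_le
    intro f hf
    by_contra hf0
    exact hcon f hf0 hf
  refine no_matroid (K := K) (x0 := φ (zz 0)) (x1 := φ (zz 1)) (x2 := φ (zz 2)) (x3 := φ (zz 3))
    ?_ ?_ ?_ ?_
  · intro f hf
    rw [hev, g01] at hf
    exact hf
  · intro f hf
    rw [hev, g23] at hf
    exact hf
  · obtain ⟨f, hf, hf'⟩ := hne _ g02
    exact ⟨f, hf, (hev _ _ _).mpr hf'⟩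
  · obtain ⟨f, hf, hf'⟩ := hne _ g03
    exact ⟨f, hf, (hev _ _ _).mpr hf'⟩

end Pool.Agent.Helper947
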