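import Mathlib
import Pool.Agent.Helper947.T13

open CategoryTheory CategoryTheory.Limits AlgebraicGeometry Polynomial

namespace Pool.Agent.Helper947

attribute [local instance] MvPolynomial.gradedAlgebra

lemma chart_mem_pt (lam : ℂ) (q : PrimeSpectrum ℂ[X]) :
    chart lam q ∈ pt ↔ (X : ℂ[X]) ∈ q.asIdeal := by
  have h := chart_preimage lam
  have h1 : chart lam q ∈ Proj.basicOpen gr (MvPolynomial.X 1) ↔
      q ∈ PrimeSpectrum.basicOpen (X : ℂ[X]) := by
    rw [← h]; rfl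
  have h2 : chart lam q ∈ pt ↔ ¬ (chart lam q ∈ Proj.basicOpen gr (MvPolynomial.X 1)) := by
    change _ ↔ ¬ ¬ _
    rw [not_not]; rfl
  rw [h2, h1]
  exact not_not

/-- evaluation of a four variable polynomial -/
noncomputable def ev4 {D : Type*} [CommRing D] [Algebra ℂ D] (v : Fin 4 → D) : R4 →ₐ[ℂ] D where
  toRingHom := eval₂RingHom (eval₂RingHom (eval₂RingHom (ev1 (v 0)) (v 1)) (v 2)) (v 3)
  commutes' := by
    intro x
    simp [ev1, IsScalarTower.algebraMap_apply ℂ ℂ[X][X][X] R4,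
      IsScalarTower.algebraMap_apply ℂ ℂ[X][X] ℂ[X][X][X], IsScalarTower.algebraMap_apply ℂ ℂ[X] ℂ[X][X]]

lemma ev4_zz {D : Type*} [CommRing D] [Algebra ℂ D] (v : Fin 4 → D) (i : Fin 4) :
    ev4 v (zz i) = v i := by
  fin_cases i
  · change eval₂ _ _ _ = _
    simp [ev1, zz]
  · change eval₂ _ _ _ = _
    simp [zz]
  · change eval₂ _ _ _ = _
    simp [zz]
  · change eval₂ _ _ _ = _
    simp [zz]

lemma proj_chart4 (l : Fin 4 → ℂ) (i : Fin 4) (P : PrimeSpectrum R4) :
    proj i (chart4 l P) = chart (l i) (PrimeSpectrum.comap (ev1 (zz i)) P) :=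
  congrArg (fun g => g P) (chart4_proj l i)

lemma chart4_mem_pt (l : Fin 4 → ℂ) (i : Fin 4) (P : PrimeSpectrum R4) :
    proj i (chart4 l P) ∈ pt ↔ zz i ∈ P.asIdeal := by
  rw [proj_chart4, chart_mem_pt]
  change ev1 (zz i) X ∈ P.asIdeal ↔ _
  simp [ev1]

lemma R4_hom_ext {D : Type*} [CommRing D] {f g : R4 →+* D}
    (hc : ∀ c : ℂ, f (algebraMap ℂ R4 c) = g (algebraMap ℂ R4 c))
    (hz : ∀ i, f (zz i) = g (zz i)) : f = g := by
  apply Polynomial.ringHom_ext'
  · apply Polynomial.ringHom_ext'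
    · apply Polynomial.ringHom_ext'
      · apply Polynomial.ringHom_ext
        · intro c
          exact hc c
        · exact hz 0
      · exact hz 1
    · exact hz 2
  · exact hz 3

/-- the generic point of the plane spanned by `i` and `j` -/
noncomputable def planePt (v : Fin 4 → ℂ[X][X]) : PrimeSpectrum R4 :=
  PrimeSpectrum.comap (ev4 v).toRingHom bot2

lemma planePt_mem (v : Fin 4 → ℂ[X][X]) (J : Finset (Fin 4)) (hJ : ∀ k, k ∉ J → v k = 0)
    (l : Fin 4 → ℂ) : chart4 l (planePt v) ∈ schubertSet J := by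
  intro k hk
  rw [chart4_mem_pt]
  change ev4 v (zz k) = 0
  rw [ev4_zz, hJ k hk]

lemma ev2_id : ev2 (C X : ℂ[X][X]) X = RingHom.id _ := by
  apply Polynomial.ringHom_ext'
  · apply Polynomial.ringHom_ext
    · intro x
      simp [ev2, IsScalarTower.algebraMap_apply ℂ ℂ[X] ℂ[X][X]]
    · simp [ev2]
  · simp [ev2]

lemma planePt_rho (v : Fin 4 → ℂ[X][X]) (i j : Fin 4) (hi : v i = C X) (hj : v j = X)
    (l : Fin 4 → ℂ) : rho i j (chart4 l (planePt v)) = chart2 (l i) (l j) bot2 := by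
  rw [chart4_rho_apply]
  congr 1
  rw [planePt, ← PrimeSpectrum.comap_comp_apply, ev2_comp, ev4_zz, ev4_zz, hi, hj, ev2_id]
  rfl

lemma rho_ne_of_pt (z : X4) (i j : Fin 4) (h : proj i z ∈ pt ∨ proj j z ∈ pt) (a b : ℂ) :
    rho i j z ≠ chart2 a b one2 := by
  intro hcon
  have h1 := rho_fst_apply i j z
  have h2 := rho_snd_apply i j z
  rw [hcon] at h1 h2
  rw [chart2_fst_apply] at h1
  rw [chart2_snd_apply] at h2
  rcases h with h | h
  · rw [← h1, chart_mem_pt] at h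
    have h3 : eval 1 (eval 1 (C (X : ℂ[X]))) ∈ (⊥ : Ideal ℂ) := h
    simp at h3
  · rw [← h2, chart_mem_pt] at h
    have h3 : eval 1 (eval 1 (mapRingHom (algebraMap ℂ ℂ[X]) X)) ∈ (⊥ : Ideal ℂ) := h
    simp at h3

/-- the path -/
def S₀ : Finset (Finset (Fin 4)) := {{0, 1}, {1, 2}, {2, 3}}

lemma range_XS (S : Finset (Finset (Fin 4))) : Set.range (XS.ι S) = (unionSet S : Set X4) := by
  exact (Scheme.IdealSheafData.range_subschemeι _).trans
    (Scheme.IdealSheafData.coe_support_vanishingIdeal _)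

end Pool.Agent.Helper947
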