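import Mathlib
import Pool.Agent.Helper947.T14

open CategoryTheory CategoryTheory.Limits AlgebraicGeometry Polynomial

namespace Pool.Agent.Helper947

attribute [local instance] MvPolynomial.gradedAlgebra

lemma exists_affine {C₀ : Scheme.{0}} (c : C₀ ⟶ SpecC) [LocallyOfFiniteType c] (o : C₀) :
    ∃ (A : Type) (_ : CommRing A) (_ : Algebra ℂ A) (jA : Spec (CommRingCat.of A) ⟶ C₀),
      Algebra.FiniteType ℂ A ∧ IsOpenImmersion jA ∧ o ∈ Set.range jA ∧
      jA ≫ c = Spec.map (CommRingCat.ofHom (algebraMap ℂ A)) := by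
  obtain ⟨_, ⟨V, hV, rfl⟩, hoV, -⟩ :=
    C₀.isBasis_affineOpens.exists_subset_of_mem_open (Set.mem_univ o) isOpen_univ
  have hV : IsAffineOpen V := hV
  let φ : CommRingCat.of ℂ ⟶ Γ(C₀, V) := Spec.preimage (hV.fromSpec ≫ c)
  have hφ : Spec.map φ = hV.fromSpec ≫ c := Spec.map_preimage _
  refine ⟨Γ(C₀, V), inferInstance, φ.hom.toAlgebra, hV.fromSpec, ?_, inferInstance, ?_, ?_⟩
  · have h : LocallyOfFiniteType (Spec.map φ) := by rw [hφ]; infer_instance
    rw [HasRingHomProperty.Spec_iff (P := @LocallyOfFiniteType)] at h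
    exact h
  · rw [hV.range_fromSpec]
    exact hoV
  · rw [← hφ]; rfl

lemma surj_of_maximal {A : Type} [CommRing A] [Algebra ℂ A] [Algebra.FiniteType ℂ A]
    (m : Ideal A) [m.IsMaximal] (a : A) : ∃ c : ℂ, a - algebraMap ℂ A c ∈ m := by
  let : Field (A ⧸ m) := Ideal.Quotient.field m
  have h1 : Module.Finite ℂ (A ⧸ m) := finite_of_finite_type_of_isJacobsonRing ℂ (A ⧸ m)
  have h2 : Function.Bijective (algebraMap ℂ (A ⧸ m)) :=
    IsAlgClosed.algebraMap_bijective_of_isIntegral
  obtain ⟨c, hc⟩ := h2.2 (Ideal.Quotient.mk m a)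
  refine ⟨c, ?_⟩
  rw [← Ideal.Quotient.eq_zero_iff_mem, map_sub, ← hc]
  exact sub_self _

lemma irreducible_of_isOpenEmbedding {X Y : Type*} [TopologicalSpace X] [TopologicalSpace Y]
    {f : X → Y} (hf : Topology.IsOpenEmbedding f) [IrreducibleSpace Y] [Nonempty X] :
    IrreducibleSpace X := by
  have : PreirreducibleSpace X := by
    apply PreirreducibleSpace.of_forall_nonempty_inter
    intro U V hU hV hUn hVn
    obtain ⟨_, ⟨x, hx, rfl⟩, ⟨x', hx', hxx⟩⟩ := nonempty_preirreducible_inter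
      (hf.isOpenMap U hU) (hf.isOpenMap V hV) (hUn.image f) (hVn.image f)
    rw [hf.injective hxx] at hx'
    exact ⟨x, hx, hx'⟩
  exact ⟨‹_›⟩

lemma zz_ne_zero (i : Fin 4) : zz i ≠ 0 := by
  fin_cases i <;> simp [zz]

lemma closure_cell (J : Finset (Fin 4)) : closure (cell J) = schubertSet J := by
  apply subset_antisymm
  · apply closure_minimal _ (isClosed_schubertSet J)
    intro x hx i hi
    exact (hx i).mpr hi
  · intro x hx
    have h1 : ∀ i : Fin 4, ∃ lam : ℂ, proj i x ∈ (chart lam).opensRange :=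
      fun i => exists_chart _
    choose l hl using h1
    have h2 : x ∈ Set.range (chart4 l) := by
      rw [range_chart4]
      intro i
      exact hl i
    obtain ⟨Q, rfl⟩ := h2
    have hQ : ∀ k, k ∉ J → zz k ∈ (Q : PrimeSpectrum R4).asIdeal := by
      intro k hk
      have := hx k hk
      rwa [chart4_mem_pt] at this
    let φ : R4 →ₐ[ℂ] R4 := ev4 (fun k => if k ∈ J then zz k else 0)
    let P : PrimeSpectrum R4 := PrimeSpectrum.comap φ.toRingHom ⟨⊥, Ideal.isPrime_bot⟩
    have hPm : ∀ p, p ∈ P.asIdeal ↔ φ p = 0 := fun p => Iff.rfl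
    have hP : chart4 l P ∈ cell J := by
      intro i
      rw [chart4_mem_pt, hPm, ev4_zz]
      by_cases hi : i ∈ J
      · simp [hi, zz_ne_zero]
      · simp [hi]
    have hPQ : P.asIdeal ≤ (Q : PrimeSpectrum R4).asIdeal := by
      intro f hf
      rw [hPm] at hf
      rw [← Ideal.Quotient.eq_zero_iff_mem]
      have h3 : (Ideal.Quotient.mk (Q : PrimeSpectrum R4).asIdeal).comp φ.toRingHom =
          Ideal.Quotient.mk (Q : PrimeSpectrum R4).asIdeal := by
        refine R4_hom_ext (D := R4 ⧸ (Q : PrimeSpectrum R4).asIdeal) ?_ ?_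
        · intro c
          change Ideal.Quotient.mk (Q : PrimeSpectrum R4).asIdeal (φ (algebraMap ℂ R4 c)) = _
          rw [AlgHom.commutes]
        · intro k
          change Ideal.Quotient.mk (Q : PrimeSpectrum R4).asIdeal (φ (zz k)) = _
          rw [ev4_zz]
          by_cases hk : k ∈ J
          · simp [hk]
          · simp only [hk, if_false, map_zero]
            exact (Ideal.Quotient.eq_zero_iff_mem.mpr (hQ k hk)).symm
      have h4 := congrArg (fun g => g f) h3
      change Ideal.Quotient.mk (Q : PrimeSpectrum R4).asIdeal (φ f) = _ at h4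
      rw [hf, map_zero] at h4
      exact h4.symm
    have h5 : P ⤳ (Q : PrimeSpectrum R4) := (PrimeSpectrum.le_iff_specializes _ _).mp hPQ
    have h6 : chart4 l P ⤳ chart4 l Q := Specializes.map h5 (chart4 l).continuous
    exact closure_mono (Set.singleton_subset_iff.mpr hP) h6.mem_closure

lemma mem_unionSet (S : Finset (Finset (Fin 4))) (z : X4) :
    z ∈ (unionSet S : Set X4) ↔ ∃ J ∈ S, z ∈ schubertSet J := by
  have h : ∀ J, (schubert J : Set X4) = schubertSet J := fun J => closure_cell J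
  rw [unionSet, TopologicalSpace.Closeds.coe_finset_sup]
  simp only [Finset.sup_set_eq_biUnion, Set.mem_iUnion, exists_prop, Function.comp_apply, h]

theorem not_deforms : ¬ DeformsToIrreducible (XS.ι S₀) := by
  rintro ⟨C₀, c, hc, F, ι, hι, hflat, o, ho, ⟨e, he⟩, U, hU, hint⟩
  have := hc.locallyOfFiniteType
  have := hc.irreducible
  obtain ⟨A, _, _, jA, hA, hjA, ⟨m, hm⟩, hj⟩ := exists_affine c o
  let f : F ⟶ C₀ := ι ≫ pullback.snd X4.str c
  let r : F ⟶ X4 := ι ≫ pullback.fst X4.str c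
  have h : r ≫ X4.str = f ≫ c := by
    simp only [r, f, Category.assoc]
    rw [pullback.condition]
  have hproper : IsProper f := by
    unfold f; infer_instance
  have hflat' : Flat f := hflat
  have hJ : JacobsonSpace C₀ := LocallyOfFiniteType.jacobsonSpace c
  have hJA : JacobsonSpace (PrimeSpectrum A) := JacobsonSpace.of_isOpenEmbedding jA.isOpenEmbedding
  have hnoeth : IsNoetherianRing A := Algebra.FiniteType.isNoetherianRing ℂ A
  -- points over `o`
  have hfib1 : ∀ z : X4, z ∈ (unionSet S₀ : Set X4) → ∃ x : F, f x = o ∧ r x = z := by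
    intro z hz
    rw [← range_XS] at hz
    obtain ⟨ζ, rfl⟩ := hz
    refine ⟨f.fiberι o (e.inv ζ), ?_, ?_⟩
    · have : f.fiberι o (e.inv ζ) ∈ Set.range (f.fiberι o) := ⟨_, rfl⟩
      rw [Scheme.Hom.range_fiberι] at this
      exact this
    · have h1 : f.fiberι o ≫ r = e.hom ≫ XS.ι S₀ := he.symm
      have h2 : e.inv ≫ f.fiberι o ≫ r = XS.ι S₀ := by rw [h1, Iso.inv_hom_id_assoc]
      exact congrArg (fun g => g ζ) h2
  have hfib2 : ∀ x : F, f x = o → r x ∈ (unionSet S₀ : Set X4) := by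
    intro x hx
    have hx' : x ∈ Set.range (f.fiberι o) := by
      rw [Scheme.Hom.range_fiberι]
      exact hx
    obtain ⟨x1, rfl⟩ := hx'
    rw [← range_XS]
    have h1 : f.fiberι o ≫ r = e.hom ≫ XS.ι S₀ := he.symm
    refine ⟨e.hom x1, ?_⟩
    exact (congrArg (fun g => g x1) h1).symm
  -- commutative algebra of `A`
  have hmc : IsClosed ({m} : Set (PrimeSpectrum A)) := by
    have h1 : ({m} : Set (PrimeSpectrum A)) = jA ⁻¹' {o} := by
      apply Set.ext
      intro x
      change x = m ↔ jA x = o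
      rw [← hm]
      exact ⟨fun h => by rw [h], fun h => jA.isOpenEmbedding.injective h⟩
    rw [h1]
    exact ho.preimage jA.continuous
  have hmmax : m.asIdeal.IsMaximal := (PrimeSpectrum.isClosed_singleton_iff_isMaximal m).mp hmc
  have hne : Nonempty (PrimeSpectrum A) := ⟨m⟩
  have hirr : IrreducibleSpace (PrimeSpectrum A) :=
    irreducible_of_isOpenEmbedding jA.isOpenEmbedding
  have hNp : (nilradical A).IsPrime := PrimeSpectrum.irreducibleSpace_iff_isPrime_nilradical.mp hirr
  have hN : ∀ P : Ideal A, P.IsPrime → nilradical A ≤ P := fun P hP => nilradical_le_prime P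
  have hdim : Ring.KrullDimLE 1 A := by
    rw [Ring.krullDimLE_iff, ← PrimeSpectrum.topologicalKrullDim_eq_ringKrullDim]
    have h1 := jA.isOpenEmbedding.isInducing.topologicalKrullDim_le
    rw [hc.dim_eq_one] at h1
    exact_mod_cast h1
  have hsurj : ∀ P : PrimeSpectrum A, P.asIdeal.IsMaximal →
      ∀ a : A, ∃ c : ℂ, a - algebraMap ℂ A c ∈ P.asIdeal := fun P hP a => surj_of_maximal _ a
  -- the open sets
  have hV : ∀ i j : Fin 4, (∀ z ∈ (unionSet S₀ : Set X4), proj i z ∈ pt ∨ proj j z ∈ pt) →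
      kap c jA hj 0 0 (sec11 A m) ∉ Set.range (qq h i j) := by
    intro i j hij
    apply mem_nonedge h i j jA hj 0 0 m
    intro x hx
    exact rho_ne_of_pt _ i j (hij _ (hfib2 x (hx.trans hm))) 0 0
  have hV02 := hV 0 2 (by
    intro z hz
    rw [mem_unionSet] at hz
    obtain ⟨J, hJ, hz⟩ := hz
    simp only [S₀, Finset.mem_insert, Finset.mem_singleton] at hJ
    rcases hJ with rfl | rfl | rfl
    · exact Or.inr (hz 2 (by decide))
    · exact Or.inl (hz 0 (by decide))
    · exact Or.inl (hz 0 (by decide)))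
  have hV03 := hV 0 3 (by
    intro z hz
    rw [mem_unionSet] at hz
    obtain ⟨J, hJ, hz⟩ := hz
    simp only [S₀, Finset.mem_insert, Finset.mem_singleton] at hJ
    rcases hJ with rfl | rfl | rfl
    · exact Or.inr (hz 3 (by decide))
    · exact Or.inl (hz 0 (by decide))
    · exact Or.inl (hz 0 (by decide)))
  have hopen : ∃ P : PrimeSpectrum A, IsClosed {P} ∧ jA P ∈ U ∧
      kap c jA hj 0 0 (sec11 A P) ∉ Set.range (qq h 0 2) ∧
      kap c jA hj 0 0 (sec11 A P) ∉ Set.range (qq h 0 3) := by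
    have o1 := isOpen_nonedge h 0 2 jA hj 0 0
    have o2 := isOpen_nonedge h 0 3 jA hj 0 0
    have o3 : IsOpen (jA ⁻¹' (U : Set C₀)) := U.isOpen.preimage jA.continuous
    have n3 : (jA ⁻¹' (U : Set C₀)).Nonempty := by
      obtain ⟨_, hx, ⟨x, rfl⟩⟩ := nonempty_preirreducible_inter U.isOpen
        jA.isOpenEmbedding.isOpen_range hU ⟨_, ⟨m, rfl⟩⟩
      exact ⟨x, hx⟩
    have n12 := nonempty_preirreducible_inter o1 o2 ⟨m, hV02⟩ ⟨m, hV03⟩
    have n123 := nonempty_preirreducible_inter (o1.inter o2) o3 n12 n3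
    obtain ⟨P, ⟨⟨h1, h2⟩, h3⟩, h4⟩ := nonempty_inter_closedPoints n123
      ((o1.inter o2).inter o3).isLocallyClosed
    exact ⟨P, h4, h3, h1, h2⟩
  obtain ⟨P, hPc, hPU, hP02, hP03⟩ := hopen
  have hPmax : P.asIdeal.IsMaximal := (PrimeSpectrum.isClosed_singleton_iff_isMaximal P).mp hPc
  have hPcl : IsClosed {jA P} := by
    have h1 := jA.isOpenEmbedding.preimage_closedPoints
    have h2 : P ∈ closedPoints (PrimeSpectrum A) := hPc
    have h3 : P ∈ jA ⁻¹' closedPoints C₀ := by rw [h1]; exact h2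
    exact h3
  have hPint : IsIntegral (f.fiber (jA P)) := hint _ hPU hPcl
  let y : F := f.fiberι (jA P) (genericPoint (f.fiber (jA P)))
  have hyP : f y = jA P := by
    have : y ∈ Set.range (f.fiberι (jA P)) := ⟨_, rfl⟩
    rw [Scheme.Hom.range_fiberι] at this
    exact this
  have hy : ∀ x : F, f x = jA P → y ⤳ x := by
    intro x hx
    have hx' : x ∈ Set.range (f.fiberι (jA P)) := by
      rw [Scheme.Hom.range_fiberι]
      exact hx
    obtain ⟨x1, rfl⟩ := hx'
    exact (genericPoint_specializes x1).map (f.fiberι (jA P)).continuous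
  have hedge : ∀ i j : Fin 4, (∃ v : Fin 4 → ℂ[X][X], v i = C X ∧ v j = X ∧
      chart4 (fun _ => 0) (planePt v) ∈ (unionSet S₀ : Set X4)) →
      rho i j (r y) = chart2 0 0 bot2 := by
    rintro i j ⟨v, hvi, hvj, hv⟩
    obtain ⟨x0, hx0, hrx0⟩ := hfib1 _ hv
    refine edge_generic h i j jA hj 0 0 (nilradical A) hN hdim m (hsurj m hmmax) x0
      (hx0.trans hm.symm) ?_ P y hy
    rw [hrx0]
    exact planePt_rho v i j hvi hvj _
  refine no_point (r y) (hedge 0 1 ?_) (hedge 2 3 ?_)
    (nonedge_generic h 0 2 jA hj 0 0 P (hsurj P hPmax) hP02 y hyP)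
    (nonedge_generic h 0 3 jA hj 0 0 P (hsurj P hPmax) hP03 y hyP)
  · refine ⟨![C X, X, 0, 0], rfl, rfl, ?_⟩
    rw [mem_unionSet]
    refine ⟨{0, 1}, by simp [S₀], planePt_mem _ _ ?_ _⟩
    intro k hk
    fin_cases k
    · exact absurd hk (by decide)
    · exact absurd hk (by decide)
    · rfl
    · rfl
  · refine ⟨![0, 0, C X, X], rfl, rfl, ?_⟩
    rw [mem_unionSet]
    refine ⟨{2, 3}, by simp [S₀], planePt_mem _ _ ?_ _⟩
    intro k hk
    fin_cases k
    · rfl
    · rfl
    · exact absurd hk (by decide)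
    · exact absurd hk (by decide)

end Pool.Agent.Helper947
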