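import Mathlib
import Pool.Agent.Helper947.Defs

namespace Pool.Agent.Helper947

open RingTheory.Sequence

lemma exists_weaklyRegular {R : Type*} [CommRing R] [IsDomain R] [UniqueFactorizationMonoid R]
    [IsNoetherianRing R] (hdim : ringKrullDim R ≤ 2) (p : Ideal R) [p.IsPrime] :
    ∃ rs : List R, (∀ r ∈ rs, r ∈ p) ∧ IsWeaklyRegular R rs ∧
      p ∈ (Ideal.ofList rs).minimalPrimes := by
  by_cases hp : p = ⊥
  · subst hp
    refine ⟨[], by simp, IsWeaklyRegular.nil R R, ?_⟩
    rw [Ideal.ofList_nil]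
    exact ⟨⟨inferInstance, le_rfl⟩, fun q _ _ => bot_le⟩
  obtain ⟨f, hfp, hf⟩ := Ideal.IsPrime.exists_mem_prime_of_ne_bot ‹p.IsPrime› hp
  have hfr : IsSMulRegular R f := by
    intro x y hxy
    exact mul_left_cancel₀ hf.ne_zero hxy
  have hfprime : (Ideal.span {f}).IsPrime := (Ideal.span_singleton_prime hf.ne_zero).mpr hf
  by_cases hpf : p = Ideal.span {f}
  · refine ⟨[f], by simpa using hfp, ?_, ?_⟩
    · rw [isWeaklyRegular_singleton_iff]
      exact hfr
    · rw [Ideal.ofList_singleton]
      rw [← hpf]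
      exact ⟨⟨inferInstance, le_rfl⟩, fun q hq _ => hq.2⟩
  have hlt : Ideal.span {f} < p := by
    refine lt_of_le_of_ne ?_ (Ne.symm hpf)
    rw [Ideal.span_singleton_le_iff_mem]
    exact hfp
  obtain ⟨g, hgp, hgf⟩ := SetLike.exists_of_lt hlt
  refine ⟨[f, g], by simp [hfp, hgp], ?_, ?_⟩
  · rw [isWeaklyRegular_cons_iff, isWeaklyRegular_singleton_iff]
    refine ⟨hfr, ?_⟩
    rw [isSMulRegular_iff_right_eq_zero_of_smul]
    intro x hx
    obtain ⟨y, rfl⟩ := Submodule.Quotient.mk_surjective _ x
    rw [← Submodule.Quotient.mk_smul, Submodule.Quotient.mk_eq_zero] at hx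
    rw [Submodule.Quotient.mk_eq_zero]
    rw [Submodule.mem_smul_pointwise_iff_exists] at hx ⊢
    obtain ⟨b, -, hb⟩ := hx
    have h1 : g * y ∈ Ideal.span {f} := by
      rw [Ideal.mem_span_singleton]
      exact ⟨b, hb.symm⟩
    rcases hfprime.mem_or_mem h1 with h2 | h2
    · exact absurd h2 hgf
    · rw [Ideal.mem_span_singleton] at h2
      obtain ⟨c, hc⟩ := h2
      exact ⟨c, trivial, hc.symm⟩
  · have hle : Ideal.ofList [f, g] ≤ p := by
      rw [Ideal.ofList, Ideal.span_le]
      intro x hx
      simp only [List.mem_cons, List.not_mem_nil, or_false, Set.mem_ofPred_eq] at hx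
      rcases hx with rfl | rfl
      · exact hfp
      · exact hgp
    refine ⟨⟨inferInstance, hle⟩, ?_⟩
    rintro q ⟨hq, hfgq⟩ hqp
    by_contra hcon
    have hqlt : q < p := lt_of_le_not_ge hqp hcon
    have hfq : f ∈ q := hfgq (Ideal.subset_span (by simp))
    have hgq : g ∈ q := hfgq (Ideal.subset_span (by simp))
    have h1 : (⊥ : Ideal R) < Ideal.span {f} := by
      rw [bot_lt_iff_ne_bot, Ne, Ideal.span_singleton_eq_bot]
      exact hf.ne_zero
    have h2 : Ideal.span {f} < q := by
      refine lt_of_le_of_ne ?_ ?_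
      · rw [Ideal.span_singleton_le_iff_mem]; exact hfq
      · intro h
        exact hgf (h ▸ hgq)
    have h3 := Ideal.height_add_one_le_of_lt_of_isPrime h1
    have h4 := Ideal.height_add_one_le_of_lt_of_isPrime h2
    have h5 := Ideal.height_add_one_le_of_lt_of_isPrime hqlt
    have h6 : p.height ≤ 2 := by
      have := (Ideal.height_le_ringKrullDim_of_isPrime (I := p)).trans hdim
      exact WithBot.coe_le_coe.mp this
    have h7 : (3 : ℕ∞) ≤ 2 := by
      calc (3 : ℕ∞) = ((0 + 1) + 1) + 1 := by norm_num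
        _ ≤ (((⊥ : Ideal R).height + 1) + 1) + 1 := by gcongr; exact zero_le
        _ ≤ ((Ideal.span {f}).height + 1) + 1 := by gcongr
        _ ≤ q.height + 1 := by gcongr
        _ ≤ p.height := h5
        _ ≤ 2 := h6
    exact absurd h7 (by decide)

lemma isCMLocal_of_integral {R A S : Type} [CommRing R] [IsDomain R]
    [UniqueFactorizationMonoid R] [IsNoetherianRing R] (hdim : ringKrullDim R ≤ 2) [CommRing A]
    [Algebra R A] [Module.Flat R A] [Algebra.IsIntegral R A] [IsNoetherianRing A]
    (P : Ideal A) [P.IsPrime] [CommRing S] [IsLocalRing S] [Algebra A S]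
    [IsLocalization.AtPrime S P] : IsCMLocal S := by
  have hnoeth : IsNoetherianRing S := IsLocalization.isNoetherianRing P.primeCompl S inferInstance
  refine ⟨hnoeth, ?_⟩
  let : Algebra R S := ((algebraMap A S).comp (algebraMap R A)).toAlgebra
  have : IsScalarTower R A S := .of_algebraMap_eq (fun _ => rfl)
  have : Module.Flat A S := IsLocalization.flat S P.primeCompl
  have : Module.Flat R S := Module.Flat.trans R A S
  obtain ⟨rs, h1, h2, h3⟩ := exists_weaklyRegular hdim (P.comap (algebraMap R A))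
  have h2' : IsWeaklyRegular S (rs.map (algebraMap R S)) := h2.of_flat
  have hmem : ∀ r ∈ rs.map (algebraMap R S), r ∈ IsLocalRing.maximalIdeal S := by
    intro r hr
    obtain ⟨r, hr', rfl⟩ := List.mem_map.mp hr
    have := h1 r hr'
    rw [Ideal.mem_comap] at this
    change algebraMap A S (algebraMap R A r) ∈ _
    rw [IsLocalization.AtPrime.to_map_mem_maximal_iff S P]
    exact this
  have hreg : IsRegular S (rs.map (algebraMap R S)) :=
    (IsLocalRing.isRegular_iff_isWeaklyRegular_of_subset_maximalIdeal hmem).mpr h2'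
  refine ⟨rs.map (algebraMap R S), hmem, hreg, ?_⟩
  rw [← ringKrullDim_add_length_eq_ringKrullDim_of_isRegular _ hreg]
  have hle : Ideal.ofList (rs.map (algebraMap R S)) ≤ IsLocalRing.maximalIdeal S := by
    rw [Ideal.ofList, Ideal.span_le]
    intro r hr
    exact hmem r hr
  have hne : Ideal.ofList (rs.map (algebraMap R S)) ≠ ⊤ := fun h =>
    (IsLocalRing.maximalIdeal.isMaximal S).ne_top (top_le_iff.mp (h ▸ hle))
  have : Nontrivial (S ⧸ Ideal.ofList (rs.map (algebraMap R S))) :=
    Ideal.Quotient.nontrivial_iff.mpr hne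
  have h0 : Ring.KrullDimLE 0 (S ⧸ Ideal.ofList (rs.map (algebraMap R S))) := by
    rw [Ring.krullDimLE_zero_iff]
    intro I hI
    let Q1 : Ideal S := I.comap (Ideal.Quotient.mk _)
    have hQ1 : Q1.IsPrime := inferInstance
    have hQ1le : Ideal.ofList (rs.map (algebraMap R S)) ≤ Q1 := by
      intro x hx
      rw [Ideal.mem_comap, Ideal.Quotient.eq_zero_iff_mem.mpr hx]
      exact I.zero_mem
    let Q2 : Ideal A := Q1.comap (algebraMap A S)
    have hQ2 : Q2.IsPrime := inferInstance
    have hQ2P : Q2 ≤ P := by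
      intro x hx
      rw [← IsLocalization.AtPrime.to_map_mem_maximal_iff S P]
      exact IsLocalRing.le_maximalIdeal hQ1.ne_top hx
    have hQ2eq : Q2 = P := by
      by_contra hne
      have hlt := Ideal.IsIntegral.comap_lt_comap (R := R) (lt_of_le_of_ne hQ2P hne)
      apply hlt.not_ge
      apply h3.2 ⟨inferInstance, ?_⟩ hlt.le
      rw [Ideal.ofList, Ideal.span_le]
      intro x hx
      apply hQ1le
      exact Ideal.subset_span (List.mem_map.mpr ⟨x, hx, rfl⟩)
    have hQ1max : Q1 = IsLocalRing.maximalIdeal S := by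
      rw [← IsLocalization.AtPrime.map_eq_maximalIdeal P S, ← hQ2eq]
      exact (IsLocalization.map_under P.primeCompl S Q1).symm
    have : Q1.IsMaximal := by
      rw [hQ1max]; infer_instance
    have h5 : (Q1.map (Ideal.Quotient.mk (Ideal.ofList (rs.map (algebraMap R S))))).IsMaximal :=
      Ideal.IsMaximal.map_of_surjective_of_ker_le Ideal.Quotient.mk_surjective
        (by rw [Ideal.mk_ker]; exact hQ1le)
    rwa [Ideal.map_comap_of_surjective _ Ideal.Quotient.mk_surjective] at h5
  rw [ringKrullDimZero_iff_ringKrullDim_eq_zero.mp h0, zero_add]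

end Pool.Agent.Helper947
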