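import Mathlib
import Pool.Agent.Helper947.T15
import Pool.Agent.Helper947.T16

open Polynomial

namespace Pool.Agent.Helper947

/-- the base polynomial ring -/
def RR : Type := ℂ[X][X]

noncomputable instance : CommRing RR := inferInstanceAs (CommRing ℂ[X][X])
instance : IsDomain RR := inferInstanceAs (IsDomain ℂ[X][X])
instance : UniqueFactorizationMonoid RR := inferInstanceAs (UniqueFactorizationMonoid ℂ[X][X])
instance : IsNoetherianRing RR := inferInstanceAs (IsNoetherianRing ℂ[X][X])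

lemma dim_RR : ringKrullDim RR ≤ 2 := by
  change ringKrullDim ℂ[X][X] ≤ 2
  rw [Polynomial.ringKrullDim_of_isNoetherianRing, Polynomial.ringKrullDim_of_isNoetherianRing,
    ringKrullDim_eq_zero_of_field]
  norm_num

noncomputable def vA : Fin 4 → ℂ[X][X] := ![C X, X, 0, 0]
noncomputable def vB : Fin 4 → ℂ[X][X] := ![0, X, C X, 0]
noncomputable def vC : Fin 4 → ℂ[X][X] := ![0, 0, C X, X]

/-- the ideal of the three planes -/
noncomputable def II : Ideal R4 :=
  RingHom.ker (ev4 vA).toRingHom ⊓ RingHom.ker (ev4 vB).toRingHom ⊓ RingHom.ker (ev4 vC).toRingHom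

lemma mem_II (f : R4) : f ∈ II ↔ ev4 vA f = 0 ∧ ev4 vB f = 0 ∧ ev4 vC f = 0 := by
  rw [II, Ideal.mem_inf, Ideal.mem_inf, and_assoc]
  rfl

noncomputable def theta' : ℂ[X][X] →+* R4 := ev2 (zz 0 + zz 2) (zz 1 + zz 3)

noncomputable def theta : RR →+* R4 := theta'

lemma ev4_theta (v : Fin 4 → ℂ[X][X]) (h1 : v 0 + v 2 = C X) (h2 : v 1 + v 3 = X)
    (x : ℂ[X][X]) : ev4 v (theta' x) = x := by
  have h : (ev4 v).toRingHom.comp (ev2 (zz 0 + zz 2) (zz 1 + zz 3)) = RingHom.id _ := by
    rw [ev2_comp, map_add, map_add, ev4_zz, ev4_zz, ev4_zz, ev4_zz, h1, h2, ev2_id]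
  exact congrArg (fun g => g x) h

lemma ev4_congr (v w : Fin 4 → ℂ[X][X]) (d : ℂ[X][X]) (h : ∀ i, d ∣ v i - w i) (f : R4) :
    d ∣ ev4 v f - ev4 w f := by
  rw [← Ideal.mem_span_singleton, ← Ideal.Quotient.eq]
  have h1 : (Ideal.Quotient.mk (Ideal.span {d})).comp (ev4 v).toRingHom =
      (Ideal.Quotient.mk (Ideal.span {d})).comp (ev4 w).toRingHom := by
    refine R4_hom_ext (D := ℂ[X][X] ⧸ Ideal.span {d}) ?_ ?_
    · intro c
      have e1 : (ev4 v) (algebraMap ℂ R4 c) = (ev4 w) (algebraMap ℂ R4 c) := by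
        rw [AlgHom.commutes, AlgHom.commutes]
      exact congrArg (Ideal.Quotient.mk (Ideal.span {d})) e1
    · intro i
      change Ideal.Quotient.mk (Ideal.span {d}) (ev4 v (zz i)) =
        Ideal.Quotient.mk (Ideal.span {d}) (ev4 w (zz i))
      rw [ev4_zz, ev4_zz, Ideal.Quotient.eq, Ideal.mem_span_singleton]
      exact h i
  exact congrArg (fun g => g f) h1

/-- coordinate ring of the chart -/
def AA : Type := R4 ⧸ II

noncomputable instance : CommRing AA := inferInstanceAs (CommRing (R4 ⧸ II))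
instance : IsNoetherianRing AA := inferInstanceAs (IsNoetherianRing (R4 ⧸ II))

noncomputable def mkA : R4 →+* AA := Ideal.Quotient.mk II

lemma mkA_eq_zero (f : R4) : mkA f = 0 ↔ f ∈ II := Ideal.Quotient.eq_zero_iff_mem

lemma mkA_surj : Function.Surjective mkA := Ideal.Quotient.mk_surjective

noncomputable instance : Algebra RR AA := (mkA.comp theta).toAlgebra

lemma smul_def' (r : RR) (a : AA) : r • a = mkA (theta r) * a := rfl

/-- the freeness map -/
noncomputable def free3 : (RR × RR × RR) →ₗ[RR] AA where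
  toFun p := mkA (theta p.1) + mkA (zz 0 * theta p.2.1) + mkA (zz 3 * theta p.2.2)
  map_add' p q := by
    simp only [Prod.fst_add, Prod.snd_add, map_add, mul_add]
    ring
  map_smul' r p := by
    simp only [Prod.smul_fst, Prod.smul_snd, smul_eq_mul, map_mul, RingHom.id_apply, smul_def']
    ring

lemma ev4_free3 (v : Fin 4 → ℂ[X][X]) (h1 : v 0 + v 2 = C X) (h2 : v 1 + v 3 = X)
    (b x y : ℂ[X][X]) : ev4 v (theta' b + zz 0 * theta' x + zz 3 * theta' y) =
      b + v 0 * x + v 3 * y := by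
  rw [map_add, map_add, map_mul, map_mul, ev4_theta _ h1 h2, ev4_theta _ h1 h2,
    ev4_theta _ h1 h2, ev4_zz, ev4_zz]

lemma free3_inj : Function.Injective free3 := by
  rw [injective_iff_map_eq_zero]
  intro p h
  obtain ⟨b, x, y⟩ : ℂ[X][X] × ℂ[X][X] × ℂ[X][X] := p
  change mkA (theta' b) + mkA (zz 0 * theta' x) + mkA (zz 3 * theta' y) = 0 at h
  rw [← map_add, ← map_add, mkA_eq_zero, mem_II] at h
  obtain ⟨hA, hB, hC⟩ := h
  rw [ev4_free3 _ (by simp [vA]) (by simp [vA])] at hA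
  rw [ev4_free3 _ (by simp [vB]) (by simp [vB])] at hB
  rw [ev4_free3 _ (by simp [vC]) (by simp [vC])] at hC
  have hb : b = 0 := by
    simpa [vB] using hB
  have hx : x = 0 := by
    rw [hb] at hA
    have h3 : (C X : ℂ[X][X]) * x = 0 := by simpa [vA] using hA
    rcases mul_eq_zero.mp h3 with h4 | h4
    · simp at h4
    · exact h4
  have hy : y = 0 := by
    rw [hb] at hC
    have h3 : (X : ℂ[X][X]) * y = 0 := by simpa [vC] using hC
    rcases mul_eq_zero.mp h3 with h4 | h4
    · simp at h4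
    · exact h4
  exact Prod.ext hb (Prod.ext hx hy)

lemma free3_surj : Function.Surjective free3 := by
  intro a
  obtain ⟨f, rfl⟩ := mkA_surj a
  have h1 : (C X : ℂ[X][X]) ∣ ev4 vA f - ev4 vB f := by
    apply ev4_congr
    intro i
    fin_cases i
    · exact ⟨1, by simp [vA, vB]⟩
    · exact ⟨0, by simp [vA, vB]⟩
    · exact ⟨-1, by simp [vA, vB]; ring⟩
    · exact ⟨0, by simp [vA, vB]⟩
  have h2 : (X : ℂ[X][X]) ∣ ev4 vC f - ev4 vB f := by
    apply ev4_congr
    intro i
    fin_cases i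
    · exact ⟨0, by simp [vB, vC]⟩
    · exact ⟨-1, by simp [vB, vC]; ring⟩
    · exact ⟨0, by simp [vB, vC]⟩
    · exact ⟨1, by simp [vB, vC]⟩
  obtain ⟨x, hx⟩ := h1
  obtain ⟨y, hy⟩ := h2
  refine ⟨((ev4 vB f : ℂ[X][X]), x, y), ?_⟩
  change mkA (theta' (ev4 vB f)) + mkA (zz 0 * theta' x) + mkA (zz 3 * theta' y) = mkA f
  rw [← map_add, ← map_add, ← sub_eq_zero, ← map_sub, mkA_eq_zero, mem_II]
  refine ⟨?_, ?_, ?_⟩
  · rw [map_sub, ev4_free3 _ (by simp [vA]) (by simp [vA])]
    have : ev4 vA f = ev4 vB f + C X * x := by rw [← hx]; ring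
    rw [this]
    simp [vA]
  · rw [map_sub, ev4_free3 _ (by simp [vB]) (by simp [vB])]
    simp [vB]
  · rw [map_sub, ev4_free3 _ (by simp [vC]) (by simp [vC])]
    have : ev4 vC f = ev4 vB f + X * y := by rw [← hy]; ring
    rw [this]
    simp [vC]

noncomputable def freeEquiv : (RR × RR × RR) ≃ₗ[RR] AA :=
  LinearEquiv.ofBijective free3 ⟨free3_inj, free3_surj⟩

instance : Module.Free RR AA := Module.Free.of_equiv freeEquiv
instance : Module.Finite RR AA := Module.Finite.equiv freeEquiv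

theorem cm_localization (P : Ideal AA) [P.IsPrime] (S : Type) [CommRing S] [IsLocalRing S]
    [Algebra AA S] [IsLocalization.AtPrime S P] : IsCMLocal S :=
  isCMLocal_of_integral (R := RR) dim_RR P

end Pool.Agent.Helper947
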