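import Mathlib
import Pool.Agent.Helper947.T17

open CategoryTheory CategoryTheory.Limits AlgebraicGeometry Polynomial

namespace Pool.Agent.Helper947

attribute [local instance] MvPolynomial.gradedAlgebra

lemma isReduced_vanishingIdeal_subscheme {X : Scheme.{0}} (Z : TopologicalSpace.Closeds X) :
    IsReduced (Scheme.IdealSheafData.vanishingIdeal Z).subscheme := by
  let I := Scheme.IdealSheafData.vanishingIdeal Z
  have h : ∀ U : X.affineOpens, _root_.IsReduced (Γ(X, U) ⧸ I.ideal U) := by
    intro U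
    have h1 : I.ideal U = PrimeSpectrum.vanishingIdeal (U.2.fromSpec ⁻¹' (Z : Set X)) :=
      Scheme.IdealSheafData.vanishingIdeal_ideal Z U
    have h2 : (I.ideal U).IsRadical := by
      rw [h1]
      exact PrimeSpectrum.isRadical_vanishingIdeal _
    exact (Ideal.isRadical_iff_quotient_reduced _).mp h2
  have h3 : ∀ i, IsReduced (I.subschemeCover.openCover.X i) := by
    intro U
    have h4 := (affine_isReduced_iff (CommRingCat.of (Γ(X, (U : X.affineOpens).1) ⧸ I.ideal U))).mpr (h U)
    exact h4
  exact IsReduced.of_openCover _ I.subschemeCover.openCover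

instance (S : Finset (Finset (Fin 4))) : IsReduced (XS S) :=
  isReduced_vanishingIdeal_subscheme _

instance (S : Finset (Finset (Fin 4))) : IsClosedImmersion (XS.ι S) := by
  unfold XS.ι
  exact inferInstanceAs (IsClosedImmersion (Scheme.IdealSheafData.vanishingIdeal (unionSet S)).subschemeι)

lemma IsCMLocal.of_ringEquiv {R S : Type} [CommRing R] [IsLocalRing R] [CommRing S]
    [IsLocalRing S] (e : R ≃+* S) (h : IsCMLocal R) : IsCMLocal S := by
  obtain ⟨hn, rs, h1, h2, h3⟩ := h
  refine ⟨isNoetherianRing_of_ringEquiv R e, rs.map e, ?_, ?_, ?_⟩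
  · intro r hr
    obtain ⟨r, hr', rfl⟩ := List.mem_map.mp hr
    have := h1 r hr'
    rw [IsLocalRing.mem_maximalIdeal, mem_nonunits_iff] at this ⊢
    rwa [MulEquiv.isUnit_map]
  · refine (AddEquiv.isRegular_congr (e := e.toAddEquiv) (as := rs) (bs := rs.map e) ?_).mp h2
    exact List.forall₂_map_right_iff.mpr (List.forall₂_same.mpr fun r _ x => by simp)
  · rw [List.length_map, h3]
    exact ringKrullDim_eq_of_ringEquiv e

lemma exists_iso_of_reduced {W : Scheme.{0}} [IsReduced W] {R : Type} [CommRing R]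
    (g : W ⟶ Spec (CommRingCat.of R)) [IsClosedImmersion g] (I : Ideal R)
    (hI : I = PrimeSpectrum.vanishingIdeal (Set.range g)) :
    Nonempty (W ≅ Spec (CommRingCat.of (R ⧸ I))) := by
  obtain ⟨J, e, he⟩ : ∃ J : Ideal R, ∃ e : W ≅ Spec (CommRingCat.of (R ⧸ J)),
      g = e.hom ≫ Spec.map (CommRingCat.ofHom (Ideal.Quotient.mk J)) :=
    IsClosedImmersion.Spec_iff.mp ‹IsClosedImmersion g›
  have h1 : IsReduced (Spec (CommRingCat.of (R ⧸ J))) := isReduced_of_isOpenImmersion e.inv
  have h2 : _root_.IsReduced (R ⧸ J) := (affine_isReduced_iff _).mp h1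
  have h3 : J.IsRadical := (Ideal.isRadical_iff_quotient_reduced _).mpr h2
  have h4 : Set.range g = PrimeSpectrum.zeroLocus (J : Set R) := by
    have h5 : Set.range g = Set.range (PrimeSpectrum.comap (Ideal.Quotient.mk J)) := by
      ext x
      constructor
      · rintro ⟨w, rfl⟩
        exact ⟨e.hom w, by rw [he]; rfl⟩
      · rintro ⟨w, rfl⟩
        refine ⟨e.inv w, ?_⟩
        have := congrArg (fun k => k w) (show e.inv ≫ g = Spec.map (CommRingCat.ofHom (Ideal.Quotient.mk J)) by
          rw [he, Iso.inv_hom_id_assoc])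
        exact this
    rw [h5, range_comap_of_surjective _ _ Ideal.Quotient.mk_surjective, Ideal.mk_ker]
  have h6 : J = I := by
    have h7 : I = PrimeSpectrum.vanishingIdeal (PrimeSpectrum.zeroLocus (J : Set R)) :=
      hI.trans (congrArg PrimeSpectrum.vanishingIdeal h4)
    rw [h7, PrimeSpectrum.vanishingIdeal_zeroLocus_eq_radical, h3.radical]
  subst h6
  exact ⟨e⟩

lemma ker_le_of_mem (v : Fin 4 → ℂ[X][X]) (i j : Fin 4) (hi : v i = C X) (hj : v j = X)
    (hk : ∀ k, k ≠ i → k ≠ j → v k = 0) (Q : Ideal R4)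
    (hQ : ∀ k, k ≠ i → k ≠ j → zz k ∈ Q) (f : R4) (hf : ev4 v f = 0) : f ∈ Q := by
  rw [← Ideal.Quotient.eq_zero_iff_mem]
  have h1 : (ev2 (Ideal.Quotient.mk Q (zz i)) (Ideal.Quotient.mk Q (zz j))).comp (ev4 v).toRingHom =
      Ideal.Quotient.mk Q := by
    refine R4_hom_ext (D := R4 ⧸ Q) ?_ ?_
    · intro c
      change ev2 (Ideal.Quotient.mk Q (zz i)) (Ideal.Quotient.mk Q (zz j))
        (ev4 v (algebraMap ℂ R4 c)) = _
      rw [AlgHom.commutes]
      simp [ev2, IsScalarTower.algebraMap_apply ℂ ℂ[X] ℂ[X][X]]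
      rfl
    · intro k
      change ev2 (Ideal.Quotient.mk Q (zz i)) (Ideal.Quotient.mk Q (zz j)) (ev4 v (zz k)) = _
      rw [ev4_zz]
      by_cases hki : k = i
      · rw [hki, hi]
        simp [ev2]
      by_cases hkj : k = j
      · rw [hkj, hj]
        simp [ev2]
      rw [hk k hki hkj, map_zero]
      exact (Ideal.Quotient.eq_zero_iff_mem.mpr (hQ k hki hkj)).symm
  have h2 := congrArg (fun g => g f) h1
  change ev2 (Ideal.Quotient.mk Q (zz i)) (Ideal.Quotient.mk Q (zz j)) (ev4 v f) =
    Ideal.Quotient.mk Q f at h2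
  rw [← h2, hf, map_zero]

lemma II_eq (l : Fin 4 → ℂ) :
    II = PrimeSpectrum.vanishingIdeal ((chart4 l) ⁻¹' (unionSet S₀ : Set X4)) := by
  apply le_antisymm
  · intro f hf
    rw [mem_II] at hf
    obtain ⟨hA, hB, hC⟩ := hf
    refine (PrimeSpectrum.mem_vanishingIdeal _ _).mpr ?_
    intro Q hQ
    rw [Set.mem_preimage, mem_unionSet] at hQ
    obtain ⟨J, hJ, hQ⟩ := hQ
    simp only [S₀, Finset.mem_insert, Finset.mem_singleton] at hJ
    have hQ' : ∀ k, k ∉ J → zz k ∈ (Q : PrimeSpectrum R4).asIdeal := by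
      intro k hk
      have := hQ k hk
      rwa [chart4_mem_pt] at this
    rcases hJ with rfl | rfl | rfl
    · refine ker_le_of_mem vA 0 1 rfl rfl ?_ _ ?_ f hA
      · intro k h0 h1
        fin_cases k
        · exact absurd rfl h0
        · exact absurd rfl h1
        · rfl
        · rfl
      · intro k h0 h1
        exact hQ' k (by simp [h0, h1])
    · refine ker_le_of_mem vB 2 1 rfl rfl ?_ _ ?_ f hB
      · intro k h0 h1
        fin_cases k
        · rfl
        · exact absurd rfl h1
        · exact absurd rfl h0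
        · rfl
      · intro k h0 h1
        exact hQ' k (by simp [h0, h1])
    · refine ker_le_of_mem vC 2 3 rfl rfl ?_ _ ?_ f hC
      · intro k h0 h1
        fin_cases k
        · rfl
        · rfl
        · exact absurd rfl h0
        · exact absurd rfl h1
      · intro k h0 h1
        exact hQ' k (by simp [h0, h1])
  · intro f hf
    have hf' := (PrimeSpectrum.mem_vanishingIdeal _ _).mp hf
    have h1 : ∀ (v : Fin 4 → ℂ[X][X]) (J : Finset (Fin 4)), J ∈ S₀ → (∀ k, k ∉ J → v k = 0) →
        ev4 v f = 0 := by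
      intro v J hJ hv
      have h2 : chart4 l (planePt v) ∈ (unionSet S₀ : Set X4) := by
        rw [mem_unionSet]
        exact ⟨J, hJ, planePt_mem v J hv l⟩
      exact hf' (planePt v) h2
    rw [mem_II]
    refine ⟨h1 vA {0, 1} (by simp [S₀]) ?_, h1 vB {1, 2} (by simp [S₀]) ?_,
      h1 vC {2, 3} (by simp [S₀]) ?_⟩
    · intro k hk
      fin_cases k
      · exact absurd hk (by decide)
      · exact absurd hk (by decide)
      · rfl
      · rfl
    · intro k hk
      fin_cases k
      · rfl
      · exact absurd hk (by decide)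
      · exact absurd hk (by decide)
      · rfl
    · intro k hk
      fin_cases k
      · rfl
      · rfl
      · exact absurd hk (by decide)
      · exact absurd hk (by decide)

end Pool.Agent.Helper947
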