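import Mathlib
import Pool.Agent.Helper947.T18

open CategoryTheory CategoryTheory.Limits AlgebraicGeometry Polynomial

namespace Pool.Agent.Helper947

attribute [local instance] MvPolynomial.gradedAlgebra

/-- the stalk map of an isomorphism or open immersion, as a ring isomorphism -/
lemma isCMLocal_stalk_iff {X Y : Scheme.{0}} (f : X ⟶ Y) [IsOpenImmersion f] (x : X) :
    IsCMLocal (X.presheaf.stalk x) ↔ IsCMLocal (Y.presheaf.stalk (f x)) := by
  let e := (asIso (f.stalkMap x)).commRingCatIsoToRingEquiv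
  exact ⟨fun h => h.of_ringEquiv e.symm, fun h => h.of_ringEquiv e⟩

lemma isCMLocal_spec_AA (P : Spec (CommRingCat.of AA)) :
    IsCMLocal ((Spec (CommRingCat.of AA)).presheaf.stalk P) := by
  let P' : PrimeSpectrum AA := P
  have h : IsCMLocal (Localization.AtPrime P'.asIdeal) :=
    cm_localization P'.asIdeal (Localization.AtPrime P'.asIdeal)
  exact h.of_ringEquiv (Spec.stalkIso (CommRingCat.of AA) P').commRingCatIsoToRingEquiv.symm

theorem isCohenMacaulay_XS : IsCohenMacaulay (XS S₀) := by
  constructor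
  · exact LocallyOfFiniteType.isLocallyNoetherian (XS.ι S₀ ≫ X4.str)
  intro x
  have h1 : ∀ i : Fin 4, ∃ lam : ℂ, proj i (XS.ι S₀ x) ∈ (chart lam).opensRange :=
    fun i => exists_chart _
  choose l hl using h1
  have h2 : XS.ι S₀ x ∈ Set.range (chart4 l) := by
    rw [range_chart4]
    intro i
    exact hl i
  obtain ⟨y, hy⟩ := h2
  obtain ⟨w, hw1, hw2⟩ := Scheme.Pullback.exists_preimage_pullback (f := XS.ι S₀)
    (g := chart4 l) x y hy.symm
  have hred : IsReduced (pullback (XS.ι S₀) (chart4 l)) :=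
    isReduced_of_isOpenImmersion (pullback.fst (XS.ι S₀) (chart4 l))
  have hI : II = PrimeSpectrum.vanishingIdeal (Set.range (pullback.snd (XS.ι S₀) (chart4 l))) := by
    have h4 : (chart4 l) ⁻¹' (unionSet S₀ : Set X4) =
        Set.range (pullback.snd (XS.ι S₀) (chart4 l)) := by
      rw [Scheme.Pullback.range_snd, range_XS]
    exact (II_eq l).trans (congrArg PrimeSpectrum.vanishingIdeal h4)
  obtain ⟨e⟩ := exists_iso_of_reduced (pullback.snd (XS.ι S₀) (chart4 l)) II hI
  have h3 : IsCMLocal ((pullback (XS.ι S₀) (chart4 l)).presheaf.stalk w) := by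
    rw [isCMLocal_stalk_iff e.hom w]
    exact isCMLocal_spec_AA (e.hom w)
  rw [isCMLocal_stalk_iff (pullback.fst (XS.ι S₀) (chart4 l)) w, hw1] at h3
  exact h3

end Pool.Agent.Helper947
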